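import Pool.Agent.Work.MP_bec1e1_FIN_h39.FINA2

/-!
# FIN: block FINA: choice of the constants
-/

set_option autoImplicit false
set_option maxHeartbeats 4000000

open Filter Topology
open scoped BigOperators

namespace Pool.Agent.LCSV

open Pool.Agent.LCSE

noncomputable section

/-- `exp (d s)` beats everything -/
lemma ev_exp {d : ℝ} (hd : 0 < d) (a : ℝ) (ha : 0 ≤ a) (M : ℕ) : ∀ᶠ s : ℕ in atTop,
    (a * Real.exp (d * s / 4) + 1) * (M * s + 1) ≤ Real.exp (d * s) := by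
  have h1 : ∀ᶠ s : ℕ in atTop, 32 * (a + 1) * (M + 1) / (9 * d ^ 2) ≤ (s : ℝ) :=
    (tendsto_natCast_atTop_atTop (R := ℝ)).eventually_ge_atTop _
  filter_upwards [h1, eventually_ge_atTop 1] with s hs hs1
  have hs1' : (1 : ℝ) ≤ s := by exact_mod_cast hs1
  have hs0 : (0 : ℝ) < s := by linarith
  have hd2 : 0 < 9 * d ^ 2 := by positivity
  rw [div_le_iff₀ hd2] at hs
  have h2 : 1 + 3 * d * s / 4 + (3 * d * s / 4) ^ 2 / 2 ≤ Real.exp (3 * d * s / 4) :=
    Real.quadratic_le_exp_of_nonneg (by positivity)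
  have h3 : (a + 1) * (M * s + 1) ≤ Real.exp (3 * d * s / 4) := by
    have h4 : (a + 1) * (M * s + 1) ≤ (a + 1) * (M + 1) * s := by
      have : (M : ℝ) * s + 1 ≤ (M + 1) * s := by nlinarith
      nlinarith
    have h5 : (a + 1) * (M + 1) * s ≤ (3 * d * s / 4) ^ 2 / 2 := by
      nlinarith
    have h6 : 0 ≤ 3 * d * s / 4 := by positivity
    linarith
  have h7 : Real.exp (d * s) = Real.exp (d * s / 4) * Real.exp (3 * d * s / 4) := by
    rw [← Real.exp_add]; congr 1; ring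
  have h8 : 1 ≤ Real.exp (d * s / 4) := Real.one_le_exp (by positivity)
  rw [h7]
  calc (a * Real.exp (d * s / 4) + 1) * (M * s + 1)
      ≤ (a * Real.exp (d * s / 4) + Real.exp (d * s / 4)) * (M * s + 1) := by
        apply mul_le_mul_of_nonneg_right _ (by positivity)
        linarith
    _ = Real.exp (d * s / 4) * ((a + 1) * (M * s + 1)) := by ring
    _ ≤ _ := mul_le_mul_of_nonneg_left h3 (Real.exp_pos _).le

lemma fina_h7 {Cp Pu εp εw γ nb B s : ℝ} (hs0 : 1 ≤ s) (hB0 : 1 ≤ B) (hnb0 : 1 ≤ nb)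
    (hCpB : Cp ≤ (1 - γ) / 8 * B) (a3 : εp ≤ (1 - γ) / 8) (a4 : εw ≤ (1 - γ) / 8)
    (hg1 : 0 < 1 - γ) (hlt : Pu < γ) :
    Cp * s + (Pu + εp) * (nb * B * s) < (1 - εw) * (nb * B * s) := by
  have b0 : 0 < B * s := by positivity
  have b1 : B * s ≤ nb * B * s := by
    have := mul_le_mul_of_nonneg_right hnb0 b0.le
    linarith only [this]
  have a1 : Cp * s ≤ (1 - γ) / 8 * (nb * B * s) := by
    have h1 : Cp * s ≤ (1 - γ) / 8 * B * s := mul_le_mul_of_nonneg_right hCpB (by positivity)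
    have h2 : (1 - γ) / 8 * (B * s) ≤ (1 - γ) / 8 * (nb * B * s) :=
      mul_le_mul_of_nonneg_left b1 (by positivity)
    linarith only [h1, h2]
  have a2 : 0 < nb * B * s := b0.trans_le b1
  have a5 : (1 - γ) / 8 + (Pu + εp) < 1 - εw := by linarith only [a3, a4, hg1, hlt]
  have a6 := mul_lt_mul_of_pos_right a5 a2
  linarith only [a1, a6]

lemma fina_h5 {lam K₁ ζ B C5 d s : ℝ} (hK₁0 : 0 < K₁) (hlam : 0 < lam) (hC50 : 0 < C5)
    (hlamd : lam = d / (4 * K₁ * (C5 + 1))) (hs0 : 0 ≤ s) (hζB2 : ζ * B ≤ C5 + 1) :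
    lam * ζ * (K₁ * B * s) ≤ d * s / 4 := by
  have h'' : lam * K₁ * (ζ * B) ≤ lam * K₁ * (C5 + 1) :=
    mul_le_mul_of_nonneg_left hζB2 (by positivity)
  have h3' : lam * K₁ * (C5 + 1) = d / 4 := by
    rw [hlamd]; field_simp
  have h4 := mul_le_mul_of_nonneg_right (h''.trans h3'.le) hs0
  linarith only [h4]

theorem stmt_FINA (hNEAR : Stmt_NEAR) (hPE : Stmt_PE) (hPR : Stmt_PR) (hSHIFT : Stmt_SHIFT)
    (hWIDE : Stmt_WIDE) (hBULK : Stmt_BULK) (hDET1 : Stmt_DET1) (hDET2 : Stmt_DET2)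
    (hTUP : Stmt_TUP) (hUNI : Stmt_UNI) : Stmt_FINA := by
  intro k C p q Pl Pu w hL
  have hk := w.hk
  have hk0 : 0 < k := by omega
  have hγ0 := w.phi.gam_pos
  have hγ1 := w.phi.gam_lt
  have hPl := w.pr.pos
  have hlt := w.pr.lt
  have hPu : 0 < Pu := hPl.trans_le w.pr.le
  set γ := gam k with hγ
  let o : Fin k := ⟨0, hk0⟩
  obtain ⟨c₀, d, Cp, hc₀, hd, hCp, hN⟩ := hNEAR k C p q Pl Pu w o
  -- constants
  set K₁ : ℕ := ⌈4 / (γ - Pu)⌉₊ with hK₁
  have hgp : 0 < γ - Pu := by linarith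
  have h1 : 4 ≤ K₁ * (γ - Pu) := by
    have := Nat.le_ceil (4 / (γ - Pu))
    rwa [div_le_iff₀ hgp] at this
  have hK₁1 : 1 ≤ K₁ := by
    rcases Nat.eq_zero_or_pos K₁ with h | h
    · rw [h] at h1; norm_num at h1
    · exact h
  have hK₁0 : (0 : ℝ) < K₁ := by exact_mod_cast hK₁1
  set C5 : ℝ := 64 * (Cp + 1) / Pl + 8 * Cp / (1 - γ) with hC5
  have hg1 : 0 < 1 - γ := by linarith
  have hC5a : 64 * (Cp + 1) / Pl ≤ C5 := by
    have : 0 ≤ 8 * Cp / (1 - γ) := by positivity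
    linarith
  have hC5b : 8 * Cp / (1 - γ) ≤ C5 := by
    have : 0 ≤ 64 * (Cp + 1) / Pl := by positivity
    linarith
  have hC50 : 0 < C5 := by
    have : 0 < 64 * (Cp + 1) / Pl := by positivity
    linarith
  set lam : ℝ := d / (4 * K₁ * (C5 + 1)) with hlamd
  have hlam : 0 < lam := by positivity
  obtain ⟨ζ, c, hζ, hζ1, hc, hLn⟩ := hL lam hlam
  set B : ℕ := ⌈C5 / ζ⌉₊ with hBd
  have hBge : C5 / ζ ≤ B := Nat.le_ceil _
  have hBlt : (B : ℝ) < C5 / ζ + 1 := Nat.ceil_lt_add_one (by positivity)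
  have hB1 : 1 ≤ B := Nat.one_le_ceil_iff.mpr (by positivity)
  have hB0 : (1 : ℝ) ≤ B := by exact_mod_cast hB1
  have hζB : C5 ≤ ζ * B := by
    rw [div_le_iff₀ hζ] at hBge; linarith
  have hζB2 : ζ * B ≤ C5 + 1 := by
    have : ζ * B ≤ ζ * (C5 / ζ + 1) := mul_le_mul_of_nonneg_left hBlt.le hζ.le
    have h' : ζ * (C5 / ζ + 1) = C5 + ζ := by field_simp
    linarith
  have h2 : 64 * (Cp + 1) ≤ ζ * Pl * B := by
    rw [div_le_iff₀ hPl] at hC5a
    nlinarith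
  have hCpB : Cp ≤ (1 - γ) / 8 * B := by
    rw [div_le_iff₀ hg1] at hC5b
    have h' : C5 ≤ B := by nlinarith
    nlinarith
  set ε₁ : ℝ := min (ζ * Pl / 64) (1 / K₁) with hε₁d
  have hε₁ : 0 < ε₁ := lt_min (by positivity) (by positivity)
  have h3 : 64 * ε₁ ≤ ζ * Pl := by
    have := min_le_left (ζ * Pl / 64) (1 / (K₁ : ℝ)); linarith
  have h4 : ε₁ * K₁ ≤ 1 := by
    have := min_le_right (ζ * Pl / 64) (1 / (K₁ : ℝ))
    rwa [← hε₁d, le_div_iff₀ hK₁0] at this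
  obtain ⟨η, hη, hTU⟩ := hTUP k C p q Pl Pu w B hB1 ε₁ hε₁
  obtain ⟨nb, hnb, hUN⟩ := hUNI k C p q Pl Pu w lam ζ c hlam hζ hc hLn K₁ B hK₁1 hB1 ε₁ η hε₁ hη
  obtain ⟨K, hK, hWI⟩ := hWIDE k C p q Pl Pu w
  have hnb0 : (1 : ℝ) ≤ nb := by exact_mod_cast hnb
  set G : ℕ := nb * B with hG
  have hG1 : 1 ≤ G := Nat.mul_pos hnb hB1
  set Wc : ℕ := 2 * K * G with hWc
  set δ1 : ℝ := c₀ / (16 * nb) with hδ1
  have hδ10 : 0 < δ1 := by positivity
  have hδ1a : nb * δ1 = c₀ / 16 := by rw [hδ1]; field_simp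
  have hδ1b : δ1 ≤ c₀ / 16 := by nlinarith
  set εp : ℝ := min ((1 - γ) / 8) δ1 with hεp
  have hεp0 : 0 < εp := lt_min (by positivity) hδ10
  set εw : ℝ := min ((1 - γ) / 8) (c₀ / 16) with hεw
  have hεw0 : 0 < εw := lt_min (by positivity) (by positivity)
  set εr : ℝ := min 1 δ1 with hεr
  have hεr0 : 0 < εr := lt_min one_pos hδ10
  set J : ℕ := Wc + ⌈Cp⌉₊ with hJ
  -- eventualities
  have e1 := hPR k C p q Pl Pu w εr hεr0 B (K₁ * B) (B + 1)
  have e2 := hPE k C p q Pl Pu w εp hεp0 G 1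
  have e3 := hWI G hG1 εw hεw0
  have e4 := hBULK k C p q Pl Pu w (c₀ / 16) (by positivity) J
  have e5 := hTU Wc
  have e6 := hUN Wc
  have e7 := dens_ev hk B one_pos
  have e8 := ev_exp hd (8 * K₁ * B) (by positivity) Wc
  have e9 : ∀ᶠ s : ℕ in atTop, 64 ≤ ζ ^ 2 * Pl * B * s := by
    have h : Tendsto (fun s : ℕ => ζ ^ 2 * Pl * B * (s : ℝ)) atTop atTop :=
      Tendsto.const_mul_atTop (by positivity) tendsto_natCast_atTop_atTop
    exact h.eventually_ge_atTop 64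
  have e10 : ∀ᶠ s : ℕ in atTop, 2 * Real.exp (-(η * s)) ≤ δ1 := by
    have h : Tendsto (fun s : ℕ => 2 * Real.exp (-(η * s))) atTop (𝓝 (2 * 0)) := by
      refine Tendsto.const_mul 2 (Real.tendsto_exp_neg_atTop_nhds_zero.comp ?_)
      exact Tendsto.const_mul_atTop hη tendsto_natCast_atTop_atTop
    rw [mul_zero] at h
    filter_upwards [h.eventually_lt_const hδ10] with s hs using hs.le
  have hNNt : Tendsto (fun s : ℕ => (NN k s : ℝ)) atTop atTop := by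
    have h : ∀ s : ℕ, (s : ℝ) ≤ NN k s := fun s => by
      unfold NN
      have h1 : 4 * s < k ^ (4 * s) := Nat.lt_pow_self (by omega)
      have : s ≤ k ^ (4 * s) := by omega
      exact_mod_cast this
    exact tendsto_atTop_mono h tendsto_natCast_atTop_atTop
  have e11 : ∀ᶠ s : ℕ in atTop, 16 * G / c₀ ≤ (NN k s : ℝ) := hNNt.eventually_ge_atTop _
  have e12 : ∀ᶠ s : ℕ in atTop, ((G + B + 2 : ℕ) : ℝ) ≤ (NN k s : ℝ) := hNNt.eventually_ge_atTop _
  obtain ⟨M0, hM0⟩ := exists_pow_lt_of_lt_one (show 0 < c₀ / 16 by positivity)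
    (show (1 / 2 : ℝ) < 1 by norm_num)
  have e13 : ∀ᶠ s : ℕ in atTop, (M0 : ℝ) + 1 ≤ 8 * K₁ * B * Real.exp (d * s / 4) := by
    have h : Tendsto (fun s : ℕ => 8 * K₁ * B * Real.exp (d * s / 4)) atTop atTop := by
      refine Tendsto.const_mul_atTop (by positivity) (Real.tendsto_exp_atTop.comp ?_)
      have : (fun s : ℕ => d * (s : ℝ) / 4) = fun s : ℕ => (d / 4) * (s : ℝ) := by
        funext s; ring
      rw [this]
      exact Tendsto.const_mul_atTop (by positivity) tendsto_natCast_atTop_atTop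
    exact h.eventually_ge_atTop _
  obtain ⟨s, hNs, e1, e2, e3, e4, e5, e6, e7, e8, e9, e10, e11, e12, e13, hs1⟩ :=
    (hN.and (e1.and (e2.and (e3.and (e4.and (e5.and (e6.and (e7.and (e8.and (e9.and (e10.and
      (e11.and (e12.and (e13.and (eventually_ge_atTop 1))))))))))))))).exists
  obtain ⟨θ, h0, hθ, hAV⟩ := hNs
  have hs0 : (1 : ℝ) ≤ s := by exact_mod_cast hs1
  -- the number of chains
  set m : ℕ := ⌊Real.exp (d * s) / (Wc * s + 1)⌋₊ with hm
  have hden : (0 : ℝ) < Wc * s + 1 := by positivity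
  have hm1 : (m : ℝ) * (Wc * s + 1) ≤ Real.exp (d * s) := by
    have := Nat.floor_le (show 0 ≤ Real.exp (d * s) / (Wc * s + 1) by positivity)
    rwa [← hm, le_div_iff₀ hden] at this
  have hm2 : 8 * K₁ * B * Real.exp (d * s / 4) ≤ m := by
    have h : Real.exp (d * s) / (Wc * s + 1) < m + 1 := Nat.lt_floor_add_one _
    have h' : 8 * K₁ * B * Real.exp (d * s / 4) + 1 ≤ Real.exp (d * s) / (Wc * s + 1) := by
      rw [le_div_iff₀ hden]; exact e8
    linarith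
  have hm3 : M0 ≤ m := by
    have : (M0 : ℝ) ≤ m := by linarith
    exact_mod_cast this
  have hm4 : 1 ≤ m := by
    have : (1 : ℝ) ≤ m := by
      have : (0 : ℝ) ≤ M0 := Nat.cast_nonneg _
      linarith
    exact_mod_cast this
  have hWs : 2 * (K * (nb * B * s)) = Wc * s := by rw [hWc, hG]; ring
  have hNN1 : G + B + 2 ≤ NN k s := by exact_mod_cast e12
  have hTN : ((NN k s - 1 : ℕ) : ℝ) + 1 = NN k s := by
    rw [Nat.cast_sub (by omega)]; simp
  -- hypotheses of prob_all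
  have h5 : 8 * K₁ * B * Real.exp (lam * ζ * (K₁ * B * s : ℕ)) ≤ m := by
    refine le_trans (mul_le_mul_of_nonneg_left (Real.exp_le_exp.mpr ?_) (by positivity)) hm2
    push_cast
    exact fina_h5 hK₁0 hlam hC50 hlamd (by positivity) hζB2
  have h7 : Cp * s + (Pu + εp) * (nb * B * s : ℕ) < (1 - εw) * (nb * B * s : ℕ) := by
    push_cast
    exact fina_h7 hs0 hB0 hnb0 hCpB (min_le_left _ _) (min_le_left _ _) hg1 hlt
  have h8 : (m : ℝ) * (2 * (K * (nb * B * s) : ℕ) + 1) ≤ Real.exp (d * s) := by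
    have : (2 * ((K * (nb * B * s) : ℕ) : ℝ) + 1) = Wc * s + 1 := by
      have : (2 * (K * (nb * B * s)) : ℕ) = Wc * s := hWs
      have h' : ((2 * (K * (nb * B * s)) : ℕ) : ℝ) = ((Wc * s : ℕ) : ℝ) := by rw [this]
      push_cast at h' ⊢
      linarith
    rw [this]; exact hm1
  have hJs : Cp * s ≤ (J * s : ℕ) := by
    push_cast
    apply mul_le_mul_of_nonneg_right _ (by positivity)
    have := Nat.le_ceil Cp
    rw [hJ]; push_cast
    have : (0 : ℝ) ≤ Wc := Nat.cast_nonneg _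
    linarith
  have hJK : 2 * (K * (nb * B * s)) ≤ J * s := by
    rw [hWs]
    exact Nat.mul_le_mul_right _ (by omega)
  have hGT : nb * B ≤ NN k s - 1 := by omega
  have hgn := gth_nn hk (o := o) h0 hθ
  -- the probabilities
  have p1 : (((NN k s - 1 : ℕ) : ℝ) - B + 1) * AV k s o θ B (NN k s - 1 - B) (bb k s)
      (fun x₁ u x₂ y => ind (PRbad k s B (K₁ * B) Pl Pu εr x₁ u x₂ y)) ≤
      (((NN k s - 1 : ℕ) : ℝ) + 1) * δ1 := by
    have a1 := e1 o θ h0 hθ (NN k s - 1 - B) (by omega) (by omega)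
    have a2 : 0 ≤ AV k s o θ B (NN k s - 1 - B) (bb k s)
      (fun x₁ u x₂ y => ind (PRbad k s B (K₁ * B) Pl Pu εr x₁ u x₂ y)) :=
      AV_nonneg hk h0 hθ fun _ _ _ _ => ind_nonneg _
    have a3 : εr ≤ δ1 := min_le_right _ _
    have a4 : (((NN k s - 1 : ℕ) : ℝ) - B + 1) ≤ (((NN k s - 1 : ℕ) : ℝ) + 1) := by
      linarith
    have a5 : (0 : ℝ) ≤ ((NN k s - 1 : ℕ) : ℝ) + 1 := by positivity
    exact mul_le_mul a4 (a1.trans a3) a2 a5
  have p2 : (Exc k s (gth k s o θ) B fun rs =>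
      ind (¬ TU k (B * s) (2 * (K * (nb * B * s))) ε₁ η rs.flatten)) ≤
      2 * Real.exp (-(η * s)) := by
    rw [hWs]
    refine (Exc_gth_le hk h0 hθ B (f := fun u => ind (¬ TU k (B * s) (Wc * s) ε₁ η u))
      fun _ _ => ind_nonneg _).trans ?_
    have a1 := e7 θ h0 hθ
    have a2 : (1 + θ) ^ B ≤ 2 := by linarith
    exact mul_le_mul a2 e5 (Ex_ind_nonneg _ _) (by norm_num)
  have p3 : AV k s o θ 0 (NN k s - 1) (bb k s) (fun x₁ _ x₂ y => ind ((L (x₁ ++ x₂) y : ℝ) +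
      (Pu + εp) * (nb * B * s : ℕ) <
        Ex k (nb * B * s) fun r => (L (x₁ ++ r ++ x₂) y : ℝ))) ≤ δ1 := by
    refine le_trans (AV_mono hk h0 hθ ?_) ((e2 o θ h0 hθ (NN k s - 1) (by omega) (by omega)).trans
      (min_le_right _ _))
    intro x₁ _ x₂ y _ _ _
    refine ind_mono fun h => Or.inr ?_
    push_cast at h
    rw [hG]; push_cast
    exact h
  have p4 : ∀ u : List (Fin k), u.length = nb * B * s →
      (Ex k (bb k s) fun y => ind (¬ Wide k (nb * B * s) K εw u y)) ≤ c₀ / 16 := fun u hu =>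
    (e3 u hu).trans (min_le_right _ _)
  have p5 : AV k s o θ 0 (NN k s - 1) (bb k s) (fun x₁ _ x₂ y =>
      ind (∃ g ≤ y.length, y.length < g + J * s ∧ NT x₁ x₂ y (J * s : ℕ) g)) ≤ c₀ / 16 := by
    have := e4 o θ h0 hθ
    push_cast
    exact this
  have p6 : ∀ us : ℕ → List (Fin k), (∀ t < nb, (us t).length = B * s ∧
      TU k (B * s) (2 * (K * (nb * B * s))) ε₁ η (us t)) →
      (Ex k (bb k s) fun y =>
        ind (¬ GoodY k s (B * s) nb K₁ m (2 * (K * (nb * B * s))) lam ζ ε₁ us y)) ≤ c₀ / 16 := by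
    intro us hus
    rw [hWs] at hus ⊢
    refine (e6 m hm4 us hus).trans ?_
    exact (pow_le_pow_of_le_one (by norm_num) (by norm_num) hm3).trans hM0.le
  have hfin := prob_all hSHIFT hDET1 hDET2 w h0 hθ hs1 hB1 hnb hK hCp.le hlam hζ hζ1 hεr0
    (min_le_left _ _) hε₁ h1 h2 h3 h4 h5 e9 hεw0.le h7 h8 hGT hJs hJK p1 p2 p3 p4 p5 p6 hδ10.le
    (by positivity)
  have hb1 : ((nb * B : ℕ) : ℝ) / (((NN k s - 1 : ℕ) : ℝ) + 1) ≤ c₀ / 16 := by
    rw [hTN, div_le_iff₀ (by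
      have : (0 : ℝ) < ((G + B + 2 : ℕ) : ℝ) := by positivity
      linarith)]
    rw [div_le_iff₀ hc₀] at e11
    linarith
  have hb3 : nb * (2 * Real.exp (-(η * s))) ≤ c₀ / 16 := by
    rw [← hδ1a]
    exact mul_le_mul_of_nonneg_left e10 (by positivity)
  linarith

end

end Pool.Agent.LCSV
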