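import Pool.Agent.Work.MP_bec1e1_FIN_h39.ENVT

/-!
# FIN: block SHIFT
-/

set_option autoImplicit false
set_option maxHeartbeats 400000

open Filter Topology
open scoped BigOperators

namespace Pool.Agent.LCSV

open Pool.Agent.LCSE

noncomputable section

theorem stmt_SHIFT : Stmt_SHIFT := by
  intro k s N b a j o θ Φ hk h0 hθ haj hΦ
  set g := gth k s o θ with hg
  have hgn := gth_nn hk (o := o) h0 hθ
  set I : ℕ → ℝ := fun p => Exc k s g p fun xs₁ => Exc k s g j fun rs =>
    Exc k s g (N - j - p) fun xs₂ => Ex k b fun y => Φ xs₁.flatten rs.flatten xs₂.flatten y with hI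
  have hIn : ∀ p, 0 ≤ I p := fun p => Exc_nonneg hgn fun _ _ => Exc_nonneg hgn fun _ _ =>
    Exc_nonneg hgn fun _ _ => Ex_nonneg fun _ _ => hΦ _ _ _ _
  have h1 : ∀ p ∈ Finset.range (N + 1 - (a + j)), (Exc k s g p fun xs₁ =>
      Exc k s g a fun as => Exc k s g j fun rs =>
      Exc k s g (N - (a + j) - p) fun xs₂ => Ex k b fun y =>
      Φ (xs₁.flatten ++ as.flatten) rs.flatten xs₂.flatten y) = I (a + p) := by
    intro p hp
    simp only [hI]
    rw [show a + p = p + a by ring, Exc_append]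
    refine Exc_congr fun xs₁ _ => Exc_congr fun as _ => Exc_congr fun rs _ => ?_
    rw [show N - (a + j) - p = N - j - (p + a) by omega]
    refine Exc_congr fun xs₂ _ => Ex_congr fun y _ => ?_
    rw [List.flatten_append]
  rw [Finset.sum_congr rfl h1]
  have h2 : ((N : ℝ) - j + 1) * AV k s o θ j (N - j) b Φ = ∑ p ∈ Finset.range (N - j + 1), I p := by
    unfold AV
    have h3 : (((N - j : ℕ) : ℝ)) = (N : ℝ) - j := by
      rw [Nat.cast_sub (by omega)]
    rw [h3]
    have h4 : ((N : ℝ) - j + 1) ≠ 0 := by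
      rw [← h3]; positivity
    rw [mul_div_cancel₀ _ h4]
  rw [h2]
  have h5 : ∑ p ∈ Finset.range (N + 1 - (a + j)), I (a + p) =
      ∑ p ∈ Finset.Ico a (N - j + 1), I p := by
    rw [Finset.sum_Ico_eq_sum_range]
    congr 2
    omega
  rw [h5]
  exact Finset.sum_le_sum_of_subset_of_nonneg (fun p hp => by
    rw [Finset.mem_Ico] at hp; exact Finset.mem_range.mpr hp.2) fun p _ _ => hIn p

end

end Pool.Agent.LCSV
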