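import Pool.Agent.Work.MP_bec1e1_FIN_h39.FINTOP
import Pool.Agent.Work.MP_bec1e1_FIN_h39.FINA
import Pool.Agent.Work.MP_bec1e1_FIN_h39.SHIFT
import Pool.Agent.Work.MP_bec1e1_FIN_h29.NEAR
import Pool.Agent.Work.MP_bec1e1_FIN_h31.PE
import Pool.Agent.Work.MP_bec1e1_FIN_h31.PUPB
import Pool.Agent.Work.MP_bec1e1_FIN_h57.EQS
import Pool.Agent.Work.MP_bec1e1_FIN_h57.MEAN
import Pool.Agent.Work.MP_bec1e1_FIN_h28.UNI
import Pool.Agent.Work.MP_bec1e1_FIN_h13.HUG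
import Pool.Agent.Work.MP_bec1e1_FIN_h54.BULK
import Pool.Agent.Work.MP_bec1e1_FIN_h54.PR
import Pool.Agent.Work.MP_bec1e1_lv_h99.FINBB
import Pool.Agent.Work.MP_bec1e1_lv_helper14.T2
import Pool.Agent.Work.MP_bec1e1_lv_helper14.PHI1
import Pool.Agent.Work.MP_bec1e1_lv_helper6.PHI2
import Pool.Agent.Work.MP_bec1e1_lv_helper6.PLO
import Pool.Agent.Work.MP_bec1e1_lv_helper6.PUPA
import Pool.Agent.Work.MP_bec1e1_lv_helper13.TDet
import Pool.Agent.Work.MP_bec1e1_lv_helper49.FPRI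
import Pool.Agent.Work.MP_bec1e1_lv_helper49.FRES
import Pool.Agent.Work.MP_bec1e1_lv_helper49.FT2D
import Pool.Agent.Work.MP_bec1e1_lv_helper49.TDIR
import Pool.Agent.Work.MP_bec1e1_lv_helper53.GREEDY
import Pool.Agent.Work.MP_bec1e1_lv_helper53.TUP
import Pool.Agent.Work.MP_bec1e1_lv_helper63.DET1
import Pool.Agent.Work.MP_bec1e1_lv_helper63.DET2
import Pool.Agent.Work.MP_bec1e1_TOOLP_h28.MGFC
import Pool.Agent.Work.MP_bec1e1_TOOLP_h28.CU

/-!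
# FIN: collection of the blocks
-/

set_option autoImplicit false

namespace Pool.Agent.LCSV

open Pool.Agent.LCSE

theorem fin_LOW : Stmt_LOW := stmt_LOW stmt_BB stmt_TILT stmt_MGF stmt_MCD

theorem fin_MEAN : Stmt_MEAN := stmt_MEAN stmt_BB stmt_TILT (stmt_CONC stmt_ROWC)

theorem fin_HUG : Stmt_HUG := stmt_HUG stmt_BB fin_LOW stmt_CU stmt_DIR stmt_MCD

theorem fin_PLO : Stmt_PLO := stmt_PLO fin_HUG stmt_MCD stmt_LIP

theorem fin_PUPB : Stmt_PUPB := stmt_PUPB fin_MEAN fin_PLO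

theorem fin_PUPA : Stmt_PUPA := stmt_PUPA fin_HUG stmt_MCD stmt_LIP

theorem fin_PE : Stmt_PE := stmt_PE fin_PLO fin_PUPA fin_PUPB

theorem fin_PR : Stmt_PR := H54.stmt_PR stmt_SHIFT stmt_MCD stmt_LIP fin_PLO fin_PUPA fin_PUPB

theorem fin_BULK : Stmt_BULK := H54.stmt_BULK stmt_MCD stmt_LIP stmt_BB fin_LOW

theorem fin_T2 : Stmt_T2 := stmt_T2 (stmt_EQS stmt_BB) fin_MEAN fin_PE stmt_T2D

theorem fin_NEAR : Stmt_NEAR :=
  stmt_NEAR fin_T2 (stmt_FTYP stmt_MCD stmt_LIP) fin_BULK stmt_RES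

theorem fin_FINA : Stmt_FINA :=
  stmt_FINA fin_NEAR fin_PE fin_PR stmt_SHIFT stmt_WIDE fin_BULK stmt_DET1
    (stmt_DET2 stmt_MCD stmt_LIP) (stmt_TUP stmt_MCD stmt_LIP) stmt_UNI

theorem fin_PHI : Stmt_PHI := fun k hk =>
  have hk0 : 0 < k := by omega
  stmt_PHI2 k hk
    { nonneg := Phi_nonneg hk0
      mono := fun _ _ _ _ h h' => Phi_mono hk0 h h'
      comm := Phi_comm
      superadd := Phi_superadd hk0
      hom := Phi_hom hk0
      le_left := fun a b ha _ => Phi_le_left hk0 a b ha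
      F_le := F_le_Phi hk0
      lim := fun a b _ _ => Phi_lim hk0 a b
      lip := fun a b h ha _ hh => Phi_lip hk0 a b h ha hh
      line := Phi_line hk0
      gam_pos := gam_pos hk
      gam_lt := gam_lt hk
      gam_eq := gam_eq hk0 }

/-- **FIN** -/
theorem stmt_FIN : Stmt_FIN := fin_of fin_PHI stmt_PRI fin_FINA

end Pool.Agent.LCSV
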