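import Pool.Agent.Work.MP_bec1e1_lv_helper15.Tools0

/-!
# FIN: the near-tie half (definitions)

Everything happens at scales `const * s`, `s → ∞`; the number of rows is about `k ^ (4 s) * s`.
-/

set_option autoImplicit false
set_option maxHeartbeats 400000

open Filter Topology
open scoped BigOperators

namespace Pool.Agent.LCSV

open Pool.Agent.LCSE

noncomputable section

/-- lower and upper price of a row near the column rich ray of the flat cone.
`rho = 1`: one-sided derivatives of `Phi k · 1` at `1`; `rho > 1`: both are `al k`. -/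
structure Prices (k : ℕ) (Pl Pu : ℝ) : Prop where
  pos : 0 < Pl
  le : Pl ≤ Pu
  lt : Pu < gam k
  lineLo : ∀ a b : ℝ, 0 ≤ a → 0 ≤ b → Phi k a b ≤ Pl * a + (gam k - Pl) * b
  lineHi : ∀ a b : ℝ, 0 ≤ a → 0 ≤ b → Phi k a b ≤ Pu * a + (gam k - Pu) * b
  /-- inserting rows at the ray gains at least `Pl` per row -/
  dLo : ∀ ε : ℝ, 0 < ε → ∃ u : ℝ, 0 < u ∧
    Phi k 1 (rho k) + (Pl - ε) * u ≤ Phi k (1 + u) (rho k)
  /-- trivial cone: removing rows costs at most `Pu` per row -/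
  dHi : rho k = 1 → ∀ ε : ℝ, 0 < ε → ∃ u : ℝ, 0 < u ∧ u < 1 ∧
    Phi k 1 1 - Phi k (1 - u) 1 ≤ (Pu + ε) * u
  cone : 1 < rho k → Pl = al k ∧ Pu = al k
  /-- strict gain over the constant word -/
  gap : ∀ r : ℝ, 0 < r → ∃ η : ℝ, 0 < η ∧ ∀ c : ℝ, r ≤ c → c ≤ (1 - r) * k →
    c / k + η ≤ Phi k 1 c
  /-- saturated direction -/
  two : ∃ η : ℝ, 0 < η ∧ 1 + Pu + η ≤ Phi k 2 k

/-- all the hypotheses on the world except the luck -/
structure World (k : ℕ) (C p q Pl Pu : ℝ) : Prop where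
  hk : 2 ≤ k
  phi : PhiFacts k
  C0 : 0 < C
  DEF : ∀ a b : ℕ, Phi k a b - F k a b ≤ C * √((a : ℝ) + b)
  p0 : 0 < p
  q0 : 0 < q
  pq : p + q = gam k
  flat : ∀ a b : ℝ, 0 ≤ a → 0 ≤ b → Flat k a b → p * a + q * b = al k * (a + b)
  A : ∀ (x : List (Fin k)) (b : ℕ), (Ex k b fun y => (L x y : ℝ)) ≤ p * x.length + q * b
  pr : Prices k Pl Pu

/-- conclusion of `Stmt_LU` for one alphabet -/
def Luck (k : ℕ) : Prop := ∀ lam : ℝ, 0 < lam →
  ∃ (ζ c : ℝ), 0 < ζ ∧ ζ < 1 ∧ 0 < c ∧ ∀ᶠ n : ℕ in atTop, ∀ B : List (Fin k) → Prop,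
    1 / 2 ≤ (Ex k n fun u => ind (B u)) →
    (Ex k n fun V => ind ((Ex k n fun u => ind (B u ∧ (gam k + ζ) * n ≤ (L u V : ℝ))) <
      Real.exp (-(lam * ζ * n)))) ≤ Real.exp (-(c * n))

/-- number of cells of the environment -/
def NN (k s : ℕ) : ℕ := k ^ (4 * s)

/-- slack (only used for a nontrivial cone) -/
def HH (k s : ℕ) : ℕ := k ^ (4 * s - s / 2)

open scoped Classical in
/-- number of columns of the environment -/
def bb (k s : ℕ) : ℕ :=
  if rho k = 1 then NN k s * s else ⌊rho k * ((NN k s : ℝ) - HH k s) * s⌋₊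

/-- largest tilt: the density of `o^s` stays `≥ 1/2`, the other words have density
`≤ 1 + k^(-s)/2` -/
def thm (k s : ℕ) : ℝ := 1 / (2 * (k : ℝ) ^ s)

/-- mean over the position `p ∈ {0, …, N}`, over `p` cells `x₁` above and `N - p` cells `x₂` below
(tilted law), over `j` inserted cells `r` (same law), and over `y`; `Φ x₁ r x₂ y`. -/
def AV (k s : ℕ) (o : Fin k) (θ : ℝ) (j N b : ℕ)
    (Φ : List (Fin k) → List (Fin k) → List (Fin k) → List (Fin k) → ℝ) : ℝ :=
  (∑ p ∈ Finset.range (N + 1), Exc k s (gth k s o θ) p fun xs₁ =>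
    Exc k s (gth k s o θ) j fun rs => Exc k s (gth k s o θ) (N - p) fun xs₂ =>
      Ex k b fun y => Φ xs₁.flatten rs.flatten xs₂.flatten y) / (N + 1)

/-- mean LCS of `N` tilted cells and `b` columns -/
def EN (k s : ℕ) (o : Fin k) (θ : ℝ) (N b : ℕ) : ℝ :=
  Exc k s (gth k s o θ) N fun xs => Ex k b fun y => (L xs.flatten y : ℝ)

/-- `g` is a near-tie of level `ℓ` of the row between `x₁` and `x₂` -/
def NT {k : ℕ} (x₁ x₂ y : List (Fin k)) (ℓ : ℝ) (g : ℕ) : Prop :=
  (L (x₁ ++ x₂) y : ℝ) ≤ L x₁ (y.take g) + L x₂ (y.drop g) + ℓ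

open scoped Classical in
/-- number of near-ties of level `ℓ` -/
def nNT {k : ℕ} (x₁ x₂ y : List (Fin k)) (ℓ : ℝ) : ℕ :=
  ((Finset.range (y.length + 1)).filter fun g => NT x₁ x₂ y ℓ g).card

/-- typical window of length `2 k s` (columns), used in T2 -/
def Typ (k s : ℕ) (o : Fin k) (ε : ℝ) (v : List (Fin k)) : Prop :=
  v.length = 2 * k * s ∧ s ≤ v.count o ∧ ∀ c ≤ 2 * k * s,
    ((v.take c).count o : ℝ) ≤ c / k + ε * s ∧
    Phi k s c - ε * s ≤ (Ex k s fun r => (L r (v.take c) : ℝ)) ∧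
    Phi k (2 * s) c - ε * s ≤ (Ex k (2 * s) fun r => (L r (v.take c) : ℝ))

/-- window `t` of chain `i` in a family: the pieces are
`gap_0, W_{0,0}, …, W_{0,nb-1}, gap_1, W_{1,0}, …` -/
def Wd {k : ℕ} (nb : ℕ) (vs : List (List (Fin k))) (i t : ℕ) : List (Fin k) :=
  vs.getD (i * (nb + 1) + 1 + t) []

/-- luck of `u` with the first `|u|` letters of a window -/
def Lk (k : ℕ) (ζ : ℝ) (u v : List (Fin k)) : Prop :=
  (gam k + ζ) * u.length ≤ (L u (v.take u.length) : ℝ)

/-- crossing of the cells `u` (`n` rows) through `v` is atypically good -/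
def BadA (k n : ℕ) (ε₁ : ℝ) (u v : List (Fin k)) : Prop :=
  Phi k n v.length + ε₁ * n < (L u v : ℝ)

/-- the words which are not lucky with the earlier windows of the same block and the same class
(class of a window `v`: `v.length / s`), atypical crossings are not used -/
def Surv (k s n nb : ℕ) (ζ ε₁ : ℝ) (us : ℕ → List (Fin k)) (vs : List (List (Fin k)))
    (i t : ℕ) (u : List (Fin k)) : Prop :=
  ∀ i' < i, (Wd nb vs i' t).length / s = (Wd nb vs i t).length / s →
    ¬ BadA k n ε₁ (us t) (Wd nb vs i' t) → ¬ Lk k ζ u (Wd nb vs i' t)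

/-- bad window: atypical crossing, or too little luck in the set of survivors, or a wide window with
atypical content. `n` rows, `K₁ n` is the largest width for which luck is used. -/
def Bad (k s n nb K₁ : ℕ) (lam ζ ε₁ : ℝ) (us : ℕ → List (Fin k)) (vs : List (List (Fin k)))
    (i t : ℕ) : Prop :=
  BadA k n ε₁ (us t) (Wd nb vs i t) ∨
  (s ≤ (Wd nb vs i t).length ∧ (Wd nb vs i t).length < K₁ * n ∧
    1 / 2 ≤ (Ex k ((Wd nb vs i t).length / s * s) fun u =>
      ind (Surv k s n nb ζ ε₁ us vs i t u)) ∧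
    (Ex k ((Wd nb vs i t).length / s * s) fun u =>
      ind (Surv k s n nb ζ ε₁ us vs i t u ∧ Lk k ζ u (Wd nb vs i t))) <
      Real.exp (-(lam * ζ * ((Wd nb vs i t).length / s * s : ℕ)))) ∨
  (K₁ * n ≤ (Wd nb vs i t).length ∧
    (Ex k (K₁ * n) fun u => (L u ((Wd nb vs i t).take (K₁ * n)) : ℝ)) <
      (gam k - ε₁) * (K₁ * n : ℕ))

/-- a family of `m` chains of `nb` windows of length at most `Wm` in `y` -/
def Fam {k : ℕ} (m nb Wm : ℕ) (y : List (Fin k)) (vs : List (List (Fin k))) : Prop :=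
  vs.length = m * (nb + 1) ∧ vs.flatten <+: y ∧ ∀ i < m, ∀ t < nb, (Wd nb vs i t).length ≤ Wm

open scoped Classical in
/-- every family has a block `t` in which less than half of its windows are bad -/
def GoodY (k s n nb K₁ m Wm : ℕ) (lam ζ ε₁ : ℝ) (us : ℕ → List (Fin k)) (y : List (Fin k)) :
    Prop :=
  ∀ vs : List (List (Fin k)), Fam m nb Wm y vs → ∃ t < nb,
    2 * ((Finset.range m).filter fun i => Bad k s n nb K₁ lam ζ ε₁ us vs i t).card < m

/-- typical rows: for every width an atypically good crossing is exponentially unlikely -/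
def TU (k n Wm : ℕ) (ε₁ η : ℝ) (u : List (Fin k)) : Prop :=
  ∀ w ≤ Wm, (Ex k w fun v => ind (BadA k n ε₁ u v)) ≤ Real.exp (-(η * n))

/-- typical wide windows (speed bound), `D` rows `u`, `K D` columns -/
def Wide (k D K : ℕ) (ε : ℝ) (u y : List (Fin k)) : Prop :=
  ∀ g : ℕ, g + 2 * (K * D) ≤ y.length →
    L u ((y.drop (g + K * D)).take (K * D)) = D ∧
    (1 - ε) * D ≤ (Ex k D fun r => (L r ((y.drop g).take (K * D)) : ℝ))

end

end Pool.Agent.LCSV
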