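import Pool.Agent.Work.MP_bec1e1_FIN_h39.Interface
import Pool.Agent.Work.MP_bec1e1_lv_h99.EXC

/-!
# FIN: environment tools (`gth`, `thm`, `AV`)
-/

set_option autoImplicit false
set_option maxHeartbeats 400000

open Filter Topology
open scoped BigOperators

namespace Pool.Agent.LCSV

open Pool.Agent.LCSE

noncomputable section

variable {k : ℕ}

lemma thm_mul (hk : 2 ≤ k) {s : ℕ} {θ : ℝ} (hθ : θ ≤ thm k s) : θ * (k : ℝ) ^ s ≤ 1 / 2 := by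
  have hk' : (0 : ℝ) < (k : ℝ) ^ s := by positivity
  have h1 : θ * (k : ℝ) ^ s ≤ thm k s * (k : ℝ) ^ s := mul_le_mul_of_nonneg_right hθ hk'.le
  have h2 : thm k s * (k : ℝ) ^ s = 1 / 2 := by unfold thm; field_simp
  linarith

lemma gth_nn (hk : 2 ≤ k) {s : ℕ} {o : Fin k} {θ : ℝ} (h0 : 0 ≤ θ) (hθ : θ ≤ thm k s) :
    ∀ w : List (Fin k), w.length = s → 0 ≤ gth k s o θ w := fun w _ =>
  gth_nonneg h0 ((thm_mul hk hθ).trans (by norm_num)) w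

lemma gth_one (hk : 2 ≤ k) (s : ℕ) (o : Fin k) (θ : ℝ) : Ex k s (gth k s o θ) = 1 :=
  Ex_gth (by omega) s o θ

lemma thm_le (hk : 2 ≤ k) (s : ℕ) : thm k s ≤ 1 / 2 := by
  unfold thm
  have h1 : (1 : ℝ) ≤ (k : ℝ) ^ s := one_le_pow₀ (by exact_mod_cast (by omega : 1 ≤ k))
  apply div_le_div_of_nonneg_left (by norm_num) (by norm_num) (by linarith)

lemma thm_nonneg (k s : ℕ) : 0 ≤ thm k s := by unfold thm; positivity

lemma thm_le_pow (hk : 2 ≤ k) (s : ℕ) : thm k s ≤ (1 / 2 : ℝ) ^ s := by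
  unfold thm
  have h2 : (2 : ℝ) ^ s ≤ (k : ℝ) ^ s := pow_le_pow_left₀ (by norm_num) (by exact_mod_cast hk) s
  have h3 : (0 : ℝ) < 2 ^ s := by positivity
  rw [one_div_pow]
  apply div_le_div_of_nonneg_left (by norm_num) h3 (by linarith)

lemma thm_tendsto (hk : 2 ≤ k) : Tendsto (fun s : ℕ => thm k s) atTop (𝓝 0) :=
  squeeze_zero (fun s => thm_nonneg k s) (fun s => thm_le_pow hk s)
    (tendsto_pow_atTop_nhds_zero_of_lt_one (by norm_num) (by norm_num))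

/-- the product density of `J` cells is close to `1` -/
lemma dens_ev (hk : 2 ≤ k) (J : ℕ) {ε : ℝ} (hε : 0 < ε) : ∀ᶠ s : ℕ in atTop,
    ∀ θ : ℝ, 0 ≤ θ → θ ≤ thm k s → (1 + θ) ^ J ≤ 1 + ε := by
  have h1 : Tendsto (fun s : ℕ => (1 + thm k s) ^ J) atTop (𝓝 ((1 + 0) ^ J)) :=
    (tendsto_const_nhds.add (thm_tendsto hk)).pow J
  have h2 : (1 + (0 : ℝ)) ^ J < 1 + ε := by simp [hε]
  filter_upwards [h1.eventually_lt_const h2] with s hs θ h0 hθ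
  exact (pow_le_pow_left₀ (by linarith) (by linarith) J).trans hs.le

/-- comparison with uniform rows, upper bound -/
lemma Exc_gth_le (hk : 2 ≤ k) {s : ℕ} {o : Fin k} {θ : ℝ} (h0 : 0 ≤ θ) (hθ : θ ≤ thm k s) (T : ℕ)
    {f : List (Fin k) → ℝ} (hf : ∀ x, x.length = T * s → 0 ≤ f x) :
    (Exc k s (gth k s o θ) T fun l => f l.flatten) ≤ (1 + θ) ^ T * Ex k (T * s) f := by
  have h1 : (Exc k s (gth k s o θ) T fun l => f l.flatten) ≤
      Exc k s (fun w => (1 + θ) * (fun _ => (1 : ℝ)) w) T fun l => f l.flatten :=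
    Exc_dens_mono (gth_nn hk h0 hθ) (fun w _ => by simpa using gth_le h0 w)
      (fun l hl => hf _ hl.flatten_length)
  have h2 := Exc_dens_smul (k := k) (s := s) (1 + θ) (fun _ => (1 : ℝ)) T (fun l => f l.flatten)
  have h3 : (Exc k s (fun _ => (1 : ℝ)) T fun l => f l.flatten) = Ex k (T * s) f :=
    Exs_flatten s T f
  rw [h2, h3] at h1
  exact h1

/-- `AV` with no inserted cells -/
lemma AV_zero (k s : ℕ) (o : Fin k) (θ : ℝ) (N b : ℕ)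
    (Φ : List (Fin k) → List (Fin k) → List (Fin k) → List (Fin k) → ℝ) :
    AV k s o θ 0 N b Φ = (∑ p ∈ Finset.range (N + 1), Exc k s (gth k s o θ) p fun xs₁ =>
      Exc k s (gth k s o θ) (N - p) fun xs₂ => Ex k b fun y => Φ xs₁.flatten [] xs₂.flatten y) /
      (N + 1) := rfl

lemma AV_mono (hk : 2 ≤ k) {s : ℕ} {o : Fin k} {θ : ℝ} (h0 : 0 ≤ θ) (hθ : θ ≤ thm k s)
    {j N b : ℕ} {Φ Ψ : List (Fin k) → List (Fin k) → List (Fin k) → List (Fin k) → ℝ}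
    (h : ∀ x₁ r x₂ y, r.length = j * s → x₁.length + x₂.length = N * s → y.length = b →
      Φ x₁ r x₂ y ≤ Ψ x₁ r x₂ y) :
    AV k s o θ j N b Φ ≤ AV k s o θ j N b Ψ := by
  unfold AV
  apply div_le_div_of_nonneg_right _ (by positivity)
  refine Finset.sum_le_sum fun p hp => ?_
  have hp' : p ≤ N := Nat.lt_succ_iff.mp (Finset.mem_range.mp hp)
  refine Exc_mono (gth_nn hk h0 hθ) fun xs₁ h1 => Exc_mono (gth_nn hk h0 hθ) fun rs hr =>
    Exc_mono (gth_nn hk h0 hθ) fun xs₂ h2 => Ex_mono fun y hy => ?_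
  refine h _ _ _ _ hr.flatten_length ?_ hy
  rw [h1.flatten_length, h2.flatten_length, ← Nat.add_mul]
  congr 1
  omega

lemma AV_add {s : ℕ} {o : Fin k} {θ : ℝ} {j N b : ℕ}
    (Φ Ψ : List (Fin k) → List (Fin k) → List (Fin k) → List (Fin k) → ℝ) :
    AV k s o θ j N b (fun x₁ r x₂ y => Φ x₁ r x₂ y + Ψ x₁ r x₂ y) =
      AV k s o θ j N b Φ + AV k s o θ j N b Ψ := by
  unfold AV
  rw [← add_div, ← Finset.sum_add_distrib]
  congr 1
  refine Finset.sum_congr rfl fun p _ => ?_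
  rw [← Exc_add]
  refine Exc_congr fun xs₁ _ => ?_
  rw [← Exc_add]
  refine Exc_congr fun rs _ => ?_
  rw [← Exc_add]
  exact Exc_congr fun xs₂ _ => Ex_add _ _ _

lemma AV_const_mul {s : ℕ} {o : Fin k} {θ : ℝ} {j N b : ℕ} (c : ℝ)
    (Φ : List (Fin k) → List (Fin k) → List (Fin k) → List (Fin k) → ℝ) :
    AV k s o θ j N b (fun x₁ r x₂ y => c * Φ x₁ r x₂ y) = c * AV k s o θ j N b Φ := by
  unfold AV
  simp only [Ex_const_mul, Exc_const_mul]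
  rw [← Finset.mul_sum, mul_div_assoc]

lemma AV_const (hk : 2 ≤ k) {s : ℕ} {o : Fin k} {θ : ℝ} {j N b : ℕ} (c : ℝ) :
    AV k s o θ j N b (fun _ _ _ _ => c) = c := by
  unfold AV
  simp only [Ex_const (show 0 < k by omega), Exc_const (gth_one hk s o θ)]
  rw [Finset.sum_const, Finset.card_range, nsmul_eq_mul]
  have : ((N : ℝ) + 1) ≠ 0 := by positivity
  push_cast
  field_simp

lemma AV_sub {s : ℕ} {o : Fin k} {θ : ℝ} {j N b : ℕ}
    (Φ Ψ : List (Fin k) → List (Fin k) → List (Fin k) → List (Fin k) → ℝ) :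
    AV k s o θ j N b (fun x₁ r x₂ y => Φ x₁ r x₂ y - Ψ x₁ r x₂ y) =
      AV k s o θ j N b Φ - AV k s o θ j N b Ψ := by
  have h := AV_add (k := k) (s := s) (o := o) (θ := θ) (j := j) (N := N) (b := b) Φ
    (fun x₁ r x₂ y => (-1) * Ψ x₁ r x₂ y)
  rw [AV_const_mul] at h
  simp only [sub_eq_add_neg]
  simpa using h

lemma AV_nonneg (hk : 2 ≤ k) {s : ℕ} {o : Fin k} {θ : ℝ} (h0 : 0 ≤ θ) (hθ : θ ≤ thm k s)
    {j N b : ℕ} {Φ : List (Fin k) → List (Fin k) → List (Fin k) → List (Fin k) → ℝ}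
    (h : ∀ x₁ r x₂ y, 0 ≤ Φ x₁ r x₂ y) : 0 ≤ AV k s o θ j N b Φ := by
  have := AV_mono hk h0 hθ (o := o) (j := j) (N := N) (b := b) (Φ := fun _ _ _ _ => 0) (Ψ := Φ)
    fun _ _ _ _ _ _ _ => h _ _ _ _
  rwa [AV_const hk] at this

/-- Markov -/
lemma AV_markov (hk : 2 ≤ k) {s : ℕ} {o : Fin k} {θ : ℝ} (h0 : 0 ≤ θ) (hθ : θ ≤ thm k s)
    {j N b : ℕ} {Φ : List (Fin k) → List (Fin k) → List (Fin k) → List (Fin k) → ℝ} {t : ℝ}
    (ht : 0 < t) (h : ∀ x₁ r x₂ y, 0 ≤ Φ x₁ r x₂ y) :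
    AV k s o θ j N b (fun x₁ r x₂ y => ind (t ≤ Φ x₁ r x₂ y)) ≤ AV k s o θ j N b Φ / t := by
  have h1 := AV_mono hk h0 hθ (o := o) (j := j) (N := N) (b := b)
    (Φ := fun x₁ r x₂ y => ind (t ≤ Φ x₁ r x₂ y)) (Ψ := fun x₁ r x₂ y => t⁻¹ * Φ x₁ r x₂ y)
    fun x₁ r x₂ y _ _ _ => by
      rw [← div_eq_inv_mul]
      exact ind_le_div ht (h _ _ _ _)
  rwa [AV_const_mul, ← div_eq_inv_mul] at h1

end

end Pool.Agent.LCSV
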