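import Pool.Agent.Work.MP_bec1e1_FIN_h39.SHIFT

/-!
# FIN: block FINA, part 1: the stretch cut into blocks, the deterministic contradiction
-/

set_option autoImplicit false
set_option maxHeartbeats 400000

open Filter Topology
open scoped BigOperators

namespace Pool.Agent.LCSV

open Pool.Agent.LCSE

noncomputable section

variable {k : ℕ}

/-- block `t` of `B` cells -/
def bk {α : Type*} (B : ℕ) (us : List (List α)) (t : ℕ) : List α := ((us.drop (t * B)).take B).flatten

/-- the list of the blocks -/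
def bls {α : Type*} (B nb : ℕ) (us : List (List α)) : List (List α) :=
  (List.range nb).map fun t => bk B us t

lemma bls_length {α : Type*} (B nb : ℕ) (us : List (List α)) : (bls B nb us).length = nb := by
  simp [bls]

lemma bls_getD {α : Type*} (B nb : ℕ) (us : List (List α)) {t : ℕ} (ht : t < nb) :
    (bls B nb us).getD t [] = bk B us t := by
  have h : t < (bls B nb us).length := by rw [bls_length]; exact ht
  rw [List.getD_eq_getElem _ _ h]
  simp [bls]

lemma bls_take {α : Type*} (B nb : ℕ) (us : List (List α)) {t : ℕ} (ht : t ≤ nb) :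
    ((bls B nb us).take t).flatten = (us.take (t * B)).flatten := by
  induction t with
  | zero => simp
  | succ t ih =>
    have h : t < (bls B nb us).length := by rw [bls_length]; omega
    rw [List.take_add_one, List.flatten_append, ih (by omega), List.getElem?_eq_getElem h]
    have h2 : (bls B nb us)[t] = bk B us t := by simp [bls]
    rw [h2, Option.toList_some, List.flatten_singleton, Nat.succ_mul, List.take_add,
      List.flatten_append]
    rfl

lemma bls_flatten {α : Type*} (B nb : ℕ) (us : List (List α)) (h : us.length = nb * B) :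
    (bls B nb us).flatten = us.flatten := by
  have h1 := bls_take B nb us (le_refl nb)
  rw [List.take_of_length_le (by rw [bls_length]), List.take_of_length_le (by rw [h])] at h1
  exact h1

lemma bls_drop {α : Type*} (B nb : ℕ) (us : List (List α)) (h : us.length = nb * B) {t : ℕ}
    (ht : t ≤ nb) : ((bls B nb us).drop t).flatten = (us.drop (t * B)).flatten := by
  have h1 : ((bls B nb us).take t).flatten ++ ((bls B nb us).drop t).flatten =
      (us.take (t * B)).flatten ++ (us.drop (t * B)).flatten := by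
    rw [← List.flatten_append, ← List.flatten_append, List.take_append_drop,
      List.take_append_drop, bls_flatten B nb us h]
  rw [bls_take B nb us ht] at h1
  exact List.append_cancel_left h1

lemma bk_length {B nb s : ℕ} {us : List (List (Fin k))} (h : IsCells s (nb * B) us) {t : ℕ}
    (ht : t < nb) : (bk B us t).length = B * s := by
  have h1 : IsCells s B ((us.drop (t * B)).take B) := by
    refine ⟨?_, fun w hw => h.2 w (List.mem_of_mem_drop (List.mem_of_mem_take hw))⟩
    rw [List.length_take, List.length_drop, h.1]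
    have h2 : t * B + B ≤ nb * B := by
      calc t * B + B = (t + 1) * B := by ring
        _ ≤ nb * B := Nat.mul_le_mul_right _ ht
    omega
  exact h1.flatten_length

/-- the bad events of the assembly -/
def EvPR (k s B K₁ : ℕ) (Pl Pu ε : ℝ) (x₁ : List (Fin k)) (us : List (List (Fin k)))
    (x₃ y : List (Fin k)) (t : ℕ) : Prop :=
  PRbad k s B (K₁ * B) Pl Pu ε (x₁ ++ (us.take (t * B)).flatten) (bk B us t)
    ((us.drop ((t + 1) * B)).flatten ++ x₃) y

/-- the deterministic contradiction: all parameters fixed -/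
theorem det_all (hDET1 : Stmt_DET1) (hDET2 : Stmt_DET2) {C p q Pl Pu : ℝ}
    (w : World k C p q Pl Pu) {s B K₁ nb m K : ℕ} {Cp lam ζ ε ε₁ εp εw d : ℝ}
    (hs : 1 ≤ s) (hB : 1 ≤ B) (hnb : 1 ≤ nb) (hK : 1 ≤ K) (hCp : 0 ≤ Cp) (hlam : 0 < lam)
    (hζ : 0 < ζ) (hζ1 : ζ < 1) (hε : 0 < ε) (hε1 : ε ≤ 1) (hε₁ : 0 < ε₁)
    (h1 : 4 ≤ K₁ * (gam k - Pu)) (h2 : 64 * (Cp + 1) ≤ ζ * Pl * B) (h3 : 64 * ε₁ ≤ ζ * Pl)
    (h4 : ε₁ * K₁ ≤ 1) (h5 : 8 * K₁ * B * Real.exp (lam * ζ * (K₁ * B * s : ℕ)) ≤ m)
    (h6 : 64 ≤ ζ ^ 2 * Pl * B * s) (hεw : 0 ≤ εw)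
    (h7 : Cp * s + (Pu + εp) * (nb * B * s : ℕ) < (1 - εw) * (nb * B * s : ℕ))
    (h8 : (m : ℝ) * (2 * (K * (nb * B * s) : ℕ) + 1) ≤ Real.exp (d * s))
    {x₁ x₃ y : List (Fin k)} {us : List (List (Fin k))} (hus : IsCells s (nb * B) us)
    (rich : Real.exp (d * s) ≤ nNT x₁ (us.flatten ++ x₃) y (Cp * s))
    (hPR : ∀ t < nb, ¬ EvPR k s B K₁ Pl Pu ε x₁ us x₃ y t)
    (hPE : (Ex k (nb * B * s) fun r => (L (x₁ ++ r ++ (us.flatten ++ x₃)) y : ℝ)) ≤
      L (x₁ ++ (us.flatten ++ x₃)) y + (Pu + εp) * (nb * B * s : ℕ))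
    (hW : Wide k (nb * B * s) K εw us.flatten y)
    (hBK : ∀ g ≤ y.length, NT x₁ (us.flatten ++ x₃) y (Cp * s) g →
      g + 2 * (K * (nb * B * s)) ≤ y.length)
    (hG : GoodY k s (B * s) nb K₁ m (2 * (K * (nb * B * s))) lam ζ ε₁ (fun t => bk B us t) y) :
    False := by
  have hfl : (bls B nb us).flatten = us.flatten := bls_flatten B nb us hus.1
  have hD : (bls B nb us).flatten.length = nb * B * s := by rw [hfl]; exact hus.flatten_length
  have hD1 : 1 ≤ nb * B * s := Nat.mul_pos (Nat.mul_pos hnb hB) hs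
  have hcount : m * (2 * (K * (nb * B * s)) + 1) ≤
      nNT x₁ ((bls B nb us).flatten ++ x₃) y (Cp * s) := by
    rw [hfl]
    have := h8.trans rich
    exact_mod_cast this
  obtain ⟨vs, hF, hrep⟩ := hDET1 k nb (nb * B * s) K m x₁ x₃ y (bls B nb us) (Cp * s) εw (Pu + εp)
    (bls_length _ _ _) hD hD1 hK (by positivity) hεw h7 (by rw [hfl]; exact hW)
    (by rw [hfl]; exact hPE) (by rw [hfl]; exact hBK) hcount
  obtain ⟨t, ht, hgood⟩ := hG vs hF
  have hbt : (bls B nb us).getD t [] = bk B us t := bls_getD B nb us ht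
  have hword : x₁ ++ (us.take (t * B)).flatten ++ bk B us t ++
      ((us.drop ((t + 1) * B)).flatten ++ x₃) = x₁ ++ ((bls B nb us).flatten ++ x₃) := by
    rw [hfl]
    have h10 : us.flatten = (us.take (t * B)).flatten ++ (bk B us t ++
        (us.drop ((t + 1) * B)).flatten) := by
      unfold bk
      rw [← List.flatten_append, ← List.flatten_append]
      congr 1
      rw [Nat.succ_mul, ← List.drop_drop, List.take_append_drop, List.take_append_drop]
    rw [h10]
    simp only [List.append_assoc]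
  have htk : ((bls B nb us).take t).flatten = (us.take (t * B)).flatten :=
    bls_take B nb us ht.le
  have hdr : ((bls B nb us).drop (t + 1)).flatten = (us.drop ((t + 1) * B)).flatten :=
    bls_drop B nb us hus.1 ht
  refine hDET2 k C p q Pl Pu w s B K₁ nb m t Cp lam ζ ε ε₁ (x₁ ++ (us.take (t * B)).flatten)
    ((us.drop ((t + 1) * B)).flatten ++ x₃) y (fun t => bk B us t) vs hs hB hCp hlam hζ hζ1 hε hε1
    hε₁ h1 h2 h3 h4 h5 h6 (bk_length hus ht) ?_ (hPR t ht) hgood
  intro i hi u
  have := hrep i hi t ht u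
  rw [hbt, htk, hdr] at this
  rw [hword]
  exact this

end

end Pool.Agent.LCSV
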