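import Pool.Agent.Work.MP_bec1e1_FIN_h39.FINA1

/-!
# FIN: block FINA, part 2: probabilities at one scale `s`
-/

set_option autoImplicit false
set_option maxHeartbeats 400000

open Filter Topology
open scoped BigOperators

namespace Pool.Agent.LCSV

open Pool.Agent.LCSE

noncomputable section

variable {k : ℕ}

/-- mean with `p` cells above, a stretch of `G` cells, and the other cells below -/
def EP (k s : ℕ) (o : Fin k) (θ : ℝ) (T G b p : ℕ)
    (Φ : List (List (Fin k)) → List (List (Fin k)) → List (List (Fin k)) → List (Fin k) → ℝ) : ℝ :=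
  Exc k s (gth k s o θ) p fun xs₁ => Exc k s (gth k s o θ) G fun us =>
    Exc k s (gth k s o θ) (T - G - p) fun xs₃ => Ex k b fun y => Φ xs₁ us xs₃ y

section
variable {s : ℕ} {o : Fin k} {θ : ℝ} {T G b p : ℕ}

lemma EP_mono (hk : 2 ≤ k) (h0 : 0 ≤ θ) (hθ : θ ≤ thm k s)
    {Φ Ψ : List (List (Fin k)) → List (List (Fin k)) → List (List (Fin k)) → List (Fin k) → ℝ}
    (h : ∀ xs₁ us xs₃ y, IsCells s p xs₁ → IsCells s G us → IsCells s (T - G - p) xs₃ →
      y.length = b → Φ xs₁ us xs₃ y ≤ Ψ xs₁ us xs₃ y) :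
    EP k s o θ T G b p Φ ≤ EP k s o θ T G b p Ψ :=
  Exc_mono (gth_nn hk h0 hθ) fun _ h1 => Exc_mono (gth_nn hk h0 hθ) fun _ h2 =>
    Exc_mono (gth_nn hk h0 hθ) fun _ h3 => Ex_mono fun _ h4 => h _ _ _ _ h1 h2 h3 h4

lemma EP_add (Φ Ψ : List (List (Fin k)) → List (List (Fin k)) → List (List (Fin k)) →
    List (Fin k) → ℝ) :
    EP k s o θ T G b p (fun a u c y => Φ a u c y + Ψ a u c y) =
      EP k s o θ T G b p Φ + EP k s o θ T G b p Ψ := by
  unfold EP
  rw [← Exc_add]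
  refine Exc_congr fun xs₁ _ => ?_
  rw [← Exc_add]
  refine Exc_congr fun rs _ => ?_
  rw [← Exc_add]
  exact Exc_congr fun xs₂ _ => Ex_add _ _ _

lemma EP_sum {ι : Type*} (S : Finset ι) (Φ : ι → List (List (Fin k)) → List (List (Fin k)) →
    List (List (Fin k)) → List (Fin k) → ℝ) :
    EP k s o θ T G b p (fun a u c y => ∑ i ∈ S, Φ i a u c y) =
      ∑ i ∈ S, EP k s o θ T G b p (Φ i) := by
  unfold EP
  rw [← Exc_finset_sum]
  refine Exc_congr fun xs₁ _ => ?_
  rw [← Exc_finset_sum]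
  refine Exc_congr fun rs _ => ?_
  rw [← Exc_finset_sum]
  exact Exc_congr fun xs₂ _ => Ex_finset_sum _ _ _

/-- merging the stretch with the cells below -/
lemma EP_merge (hp : p < T + 1 - G) (hG : G ≤ T) (Φ : List (List (Fin k)) → List (List (Fin k)) →
    List (Fin k) → ℝ) :
    (Exc k s (gth k s o θ) p fun xs₁ => Exc k s (gth k s o θ) (T - p) fun xs₂ =>
      Ex k b fun y => Φ xs₁ xs₂ y) = EP k s o θ T G b p fun xs₁ us xs₃ y => Φ xs₁ (us ++ xs₃) y := by
  unfold EP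
  refine Exc_congr fun xs₁ _ => ?_
  rw [show T - p = G + (T - G - p) by omega, Exc_append]

/-- an event of one block `t` of the stretch -/
lemma EP_block {B nb t : ℕ} (ht : t < nb) (hG : nb * B ≤ T) (hp : p < T + 1 - nb * B)
    (Φ : List (List (Fin k)) → List (List (Fin k)) → List (List (Fin k)) → List (Fin k) → ℝ) :
    EP k s o θ T (nb * B) b p (fun xs₁ us xs₃ y => Φ (xs₁ ++ us.take (t * B))
      ((us.drop (t * B)).take B) (us.drop ((t + 1) * B) ++ xs₃) y) =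
    Exc k s (gth k s o θ) p fun xs₁ => Exc k s (gth k s o θ) (t * B) fun as =>
      Exc k s (gth k s o θ) B fun rs => Exc k s (gth k s o θ) (T - (t * B + B) - p) fun xs₂ =>
        Ex k b fun y => Φ (xs₁ ++ as) rs xs₂ y := by
  unfold EP
  have htB : t * B + B ≤ nb * B := by
    calc t * B + B = (t + 1) * B := by ring
      _ ≤ nb * B := Nat.mul_le_mul_right _ ht
  refine Exc_congr fun xs₁ _ => ?_
  obtain ⟨c, hc⟩ := Nat.exists_eq_add_of_le htB
  rw [hc, show t * B + B + c = t * B + (B + c) by ring, Exc_append]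
  refine Exc_congr fun as has => ?_
  rw [Exc_append]
  refine Exc_congr fun rs hrs => ?_
  rw [show T - (t * B + B) - p = c + (T - (t * B + (B + c)) - p) by omega, Exc_append]
  refine Exc_congr fun cs _ => ?_
  refine Exc_congr fun xs₃ _ => Ex_congr fun y _ => ?_
  have e1 : (as ++ (rs ++ cs)).take (t * B) = as := List.take_left' has.1
  have e2 : (as ++ (rs ++ cs)).drop (t * B) = rs ++ cs := List.drop_left' has.1
  have e3 : (rs ++ cs).take B = rs := List.take_left' hrs.1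
  have e4 : (as ++ (rs ++ cs)).drop ((t + 1) * B) = cs := by
    rw [Nat.succ_mul, ← List.drop_drop, e2]
    exact List.drop_left' hrs.1
  beta_reduce
  rw [e1, e2, e3, e4]

end

/-- all probabilities together at one scale -/
theorem prob_all (hSHIFT : Stmt_SHIFT) (hDET1 : Stmt_DET1) (hDET2 : Stmt_DET2)
    {C p q Pl Pu : ℝ}
    (w : World k C p q Pl Pu) {s B K₁ nb m K : ℕ} {Cp lam ζ ε ε₁ εp εw d : ℝ} {o : Fin k} {θ : ℝ}
    (h0 : 0 ≤ θ) (hθ : θ ≤ thm k s)
    (hs : 1 ≤ s) (hB : 1 ≤ B) (hnb : 1 ≤ nb) (hK : 1 ≤ K) (hCp : 0 ≤ Cp) (hlam : 0 < lam)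
    (hζ : 0 < ζ) (hζ1 : ζ < 1) (hε : 0 < ε) (hε1 : ε ≤ 1) (hε₁ : 0 < ε₁)
    (h1 : 4 ≤ K₁ * (gam k - Pu)) (h2 : 64 * (Cp + 1) ≤ ζ * Pl * B) (h3 : 64 * ε₁ ≤ ζ * Pl)
    (h4 : ε₁ * K₁ ≤ 1) (h5 : 8 * K₁ * B * Real.exp (lam * ζ * (K₁ * B * s : ℕ)) ≤ m)
    (h6 : 64 ≤ ζ ^ 2 * Pl * B * s) (hεw : 0 ≤ εw)
    (h7 : Cp * s + (Pu + εp) * (nb * B * s : ℕ) < (1 - εw) * (nb * B * s : ℕ))
    (h8 : (m : ℝ) * (2 * (K * (nb * B * s) : ℕ) + 1) ≤ Real.exp (d * s))
    {T b J : ℕ} (hGT : nb * B ≤ T) (hJ : Cp * s ≤ (J * s : ℕ)) (hJK : 2 * (K * (nb * B * s)) ≤ J * s)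
    {δ1 δ2 δ3 δ4 δ5 δ6 : ℝ}
    (hPR : ((T : ℝ) - B + 1) * AV k s o θ B (T - B) b
      (fun x₁ u x₂ y => ind (PRbad k s B (K₁ * B) Pl Pu ε x₁ u x₂ y)) ≤ (T + 1) * δ1)
    (hTU : (Exc k s (gth k s o θ) B fun rs =>
      ind (¬ TU k (B * s) (2 * (K * (nb * B * s))) ε₁ δ2 rs.flatten)) ≤ δ3)
    (hPE : AV k s o θ 0 T b (fun x₁ _ x₂ y => ind ((L (x₁ ++ x₂) y : ℝ) +
      (Pu + εp) * (nb * B * s : ℕ) <
        Ex k (nb * B * s) fun r => (L (x₁ ++ r ++ x₂) y : ℝ))) ≤ δ1)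
    (hW : ∀ u : List (Fin k), u.length = nb * B * s →
      (Ex k b fun y => ind (¬ Wide k (nb * B * s) K εw u y)) ≤ δ4)
    (hBK : AV k s o θ 0 T b (fun x₁ _ x₂ y =>
      ind (∃ g ≤ y.length, y.length < g + J * s ∧ NT x₁ x₂ y (J * s : ℕ) g)) ≤ δ5)
    (hG : ∀ us : ℕ → List (Fin k), (∀ t < nb, (us t).length = B * s ∧
      TU k (B * s) (2 * (K * (nb * B * s))) ε₁ δ2 (us t)) →
      (Ex k b fun y => ind (¬ GoodY k s (B * s) nb K₁ m (2 * (K * (nb * B * s))) lam ζ ε₁ us y)) ≤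
        δ6) (hδ1 : 0 ≤ δ1) (hδ6 : 0 ≤ δ6) :
    AV k s o θ 0 T b (fun x₁ _ x₂ y => ind (Real.exp (d * s) ≤ nNT x₁ x₂ y (Cp * s))) ≤
      (nb * B : ℕ) / ((T : ℝ) + 1) + nb * δ1 + nb * δ3 + δ1 + δ4 + δ5 + δ6 := by
  have hk := w.hk
  have hk0 : 0 < k := by omega
  have hgn := gth_nn hk (o := o) h0 hθ
  have hg1 := gth_one hk s o θ
  set G := nb * B with hGdef
  set Wm := 2 * (K * (nb * B * s)) with hWm
  -- the events
  set P1 : List (List (Fin k)) → List (List (Fin k)) → List (List (Fin k)) → List (Fin k) → ℕ →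
    Prop := fun xs₁ us xs₃ y t => EvPR k s B K₁ Pl Pu ε xs₁.flatten us xs₃.flatten y t with hP1
  set P2 : List (List (Fin k)) → ℕ → Prop := fun us t => ¬ TU k (B * s) Wm ε₁ δ2 (bk B us t)
    with hP2
  set P3 : List (List (Fin k)) → List (List (Fin k)) → List (Fin k) → Prop := fun xs₁ xs₂ y =>
    (L (xs₁.flatten ++ xs₂.flatten) y : ℝ) + (Pu + εp) * (nb * B * s : ℕ) <
        Ex k (nb * B * s) fun r => (L (xs₁.flatten ++ r ++ xs₂.flatten) y : ℝ) with hP3
  set P4 : List (List (Fin k)) → List (Fin k) → Prop := fun us y =>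
    ¬ Wide k (nb * B * s) K εw us.flatten y with hP4
  set P5 : List (List (Fin k)) → List (List (Fin k)) → List (Fin k) → Prop := fun xs₁ xs₂ y =>
    ∃ g ≤ y.length, y.length < g + J * s ∧ NT xs₁.flatten xs₂.flatten y (J * s : ℕ) g with hP5
  set P6 : List (List (Fin k)) → List (Fin k) → Prop := fun us y =>
    (∀ t < nb, TU k (B * s) Wm ε₁ δ2 (bk B us t)) ∧
      ¬ GoodY k s (B * s) nb K₁ m Wm lam ζ ε₁ (fun t => bk B us t) y with hP6
  set RR : List (List (Fin k)) → List (List (Fin k)) → List (Fin k) → Prop := fun xs₁ xs₂ y =>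
    Real.exp (d * s) ≤ nNT xs₁.flatten xs₂.flatten y (Cp * s) with hRR
  -- pointwise
  have hpt : ∀ (xs₁ us xs₃ : List (List (Fin k))) (y : List (Fin k)), IsCells s G us →
      ind (RR xs₁ (us ++ xs₃) y) ≤ (∑ t ∈ Finset.range nb, ind (P1 xs₁ us xs₃ y t)) +
        (∑ t ∈ Finset.range nb, ind (P2 us t)) + ind (P3 xs₁ (us ++ xs₃) y) + ind (P4 us y) +
        ind (P5 xs₁ (us ++ xs₃) y) + ind (P6 us y) := by
    intro xs₁ us xs₃ y hus
    have hn1 : 0 ≤ ∑ t ∈ Finset.range nb, ind (P1 xs₁ us xs₃ y t) :=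
      Finset.sum_nonneg fun _ _ => ind_nonneg _
    have hn2 : 0 ≤ ∑ t ∈ Finset.range nb, ind (P2 us t) :=
      Finset.sum_nonneg fun _ _ => ind_nonneg _
    have hn3 := ind_nonneg (P3 xs₁ (us ++ xs₃) y)
    have hn4 := ind_nonneg (P4 us y)
    have hn5 := ind_nonneg (P5 xs₁ (us ++ xs₃) y)
    have hn6 := ind_nonneg (P6 us y)
    by_cases hR : RR xs₁ (us ++ xs₃) y
    swap
    · rw [ind_of_not hR]; positivity
    rw [ind_of hR]
    by_cases c1 : ∃ t < nb, P1 xs₁ us xs₃ y t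
    · obtain ⟨t, ht, h⟩ := c1
      have : (1 : ℝ) ≤ ∑ t ∈ Finset.range nb, ind (P1 xs₁ us xs₃ y t) := by
        calc (1 : ℝ) = ind (P1 xs₁ us xs₃ y t) := (ind_of h).symm
          _ ≤ _ := Finset.single_le_sum (f := fun t => ind (P1 xs₁ us xs₃ y t))
            (fun _ _ => ind_nonneg _) (Finset.mem_range.mpr ht)
      linarith
    by_cases c2 : ∃ t < nb, P2 us t
    · obtain ⟨t, ht, h⟩ := c2
      have : (1 : ℝ) ≤ ∑ t ∈ Finset.range nb, ind (P2 us t) := by
        calc (1 : ℝ) = ind (P2 us t) := (ind_of h).symm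
          _ ≤ _ := Finset.single_le_sum (f := fun t => ind (P2 us t))
            (fun _ _ => ind_nonneg _) (Finset.mem_range.mpr ht)
      linarith
    by_cases c3 : P3 xs₁ (us ++ xs₃) y
    · rw [ind_of c3]; linarith
    by_cases c4 : P4 us y
    · rw [ind_of c4]; linarith
    by_cases c5 : P5 xs₁ (us ++ xs₃) y
    · rw [ind_of c5]; linarith
    by_cases c6 : P6 us y
    · rw [ind_of c6]; linarith
    exfalso
    push Not at c1 c2
    have hTU' : ∀ t < nb, TU k (B * s) Wm ε₁ δ2 (bk B us t) := fun t ht => by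
      have := c2 t ht
      simpa [hP2] using this
    have hGood : GoodY k s (B * s) nb K₁ m Wm lam ζ ε₁ (fun t => bk B us t) y := by
      by_contra hcon
      exact c6 ⟨hTU', hcon⟩
    have hfa : (us ++ xs₃).flatten = us.flatten ++ xs₃.flatten := List.flatten_append
    refine det_all hDET1 hDET2 w hs hB hnb hK hCp hlam hζ hζ1 hε hε1 hε₁ h1 h2 h3 h4 h5 h6 hεw h7
      h8 (x₁ := xs₁.flatten) (x₃ := xs₃.flatten) (y := y) hus (by
        have := hR
        simp only [hRR] at this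
        rwa [hfa] at this) (fun t ht => c1 t ht) (by
        simp only [hP3] at c3
        rw [hfa] at c3
        exact not_lt.mp c3) (not_not.mp c4) ?_ hGood
    intro g hg hNT
    simp only [hP5] at c5
    rw [hfa] at c5
    by_contra hcon
    apply c5
    refine ⟨g, hg, by omega, ?_⟩
    unfold NT at hNT ⊢
    linarith
  -- sum over the positions
  have hT1 : (0 : ℝ) < (T : ℝ) + 1 := by positivity
  have hsplit : ∀ f : ℕ → ℝ, (∀ i, f i ≤ 1) → ∑ i ∈ Finset.range (T + 1), f i ≤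
      (∑ i ∈ Finset.range (T + 1 - G), f i) + (G : ℕ) := by
    intro f hf
    have h9 : T + 1 = (T + 1 - G) + G := by omega
    rw [h9, Finset.sum_range_add, Nat.add_sub_cancel]
    have : ∑ x ∈ Finset.range G, f (T + 1 - G + x) ≤ ∑ _x ∈ Finset.range G, (1 : ℝ) :=
      Finset.sum_le_sum fun _ _ => hf _
    rw [Finset.sum_const, Finset.card_range, nsmul_eq_mul, mul_one] at this
    linarith
  have hsub : ∀ f : ℕ → ℝ, (∀ i, 0 ≤ f i) → ∑ i ∈ Finset.range (T + 1 - G), f i ≤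
      ∑ i ∈ Finset.range (T + 1), f i := fun f hf =>
    Finset.sum_le_sum_of_subset_of_nonneg (fun i hi => by
      rw [Finset.mem_range] at hi ⊢; omega) fun i _ _ => hf i
  have hcard : ∑ _i ∈ Finset.range (T + 1 - G), (1 : ℝ) ≤ (T : ℝ) + 1 := by
    rw [Finset.sum_const, Finset.card_range, nsmul_eq_mul, mul_one]
    have : T + 1 - G ≤ T + 1 := Nat.sub_le _ _
    exact_mod_cast this
  set R : ℕ → ℝ := fun i => Exc k s (gth k s o θ) i fun xs₁ => Exc k s (gth k s o θ) (T - i)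
    fun xs₂ => Ex k b fun y => ind (RR xs₁ xs₂ y) with hR
  have hR1 : ∀ i, R i ≤ 1 := fun i => Exc_le_const hgn hg1 fun _ _ => Exc_le_const hgn hg1
    fun _ _ => Ex_ind_le_one hk0 _ _
  have hmain : ∀ i ∈ Finset.range (T + 1 - G), R i ≤
      (∑ t ∈ Finset.range nb, EP k s o θ T G b i (fun xs₁ us xs₃ y => ind (P1 xs₁ us xs₃ y t))) +
      (∑ t ∈ Finset.range nb, EP k s o θ T G b i (fun _ us _ _ => ind (P2 us t))) +
      EP k s o θ T G b i (fun xs₁ us xs₃ y => ind (P3 xs₁ (us ++ xs₃) y)) +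
      EP k s o θ T G b i (fun _ us _ y => ind (P4 us y)) +
      EP k s o θ T G b i (fun xs₁ us xs₃ y => ind (P5 xs₁ (us ++ xs₃) y)) +
      EP k s o θ T G b i (fun _ us _ y => ind (P6 us y)) := by
    intro i hi
    have hi' := Finset.mem_range.mp hi
    simp only [hR]
    rw [EP_merge hi' hGT (fun xs₁ xs₂ y => ind (RR xs₁ xs₂ y))]
    rw [← EP_sum, ← EP_sum, ← EP_add, ← EP_add, ← EP_add, ← EP_add, ← EP_add]
    exact EP_mono hk h0 hθ fun xs₁ us xs₃ y _ hus _ _ => hpt xs₁ us xs₃ y hus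
  -- the six sums
  have s1 : ∀ t ∈ Finset.range nb, ∑ i ∈ Finset.range (T + 1 - G),
      EP k s o θ T G b i (fun xs₁ us xs₃ y => ind (P1 xs₁ us xs₃ y t)) ≤ (T + 1) * δ1 := by
    intro t ht
    have ht' := Finset.mem_range.mp ht
    have htB : t * B + B ≤ nb * B := by
      calc t * B + B = (t + 1) * B := by ring
        _ ≤ nb * B := Nat.mul_le_mul_right _ ht'
    refine le_trans ?_ hPR
    refine le_trans ?_ (hSHIFT k s T b (t * B) B o θ (fun x₁ u x₂ y =>
      ind (PRbad k s B (K₁ * B) Pl Pu ε x₁ u x₂ y)) hk h0 hθ (by omega) fun _ _ _ _ =>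
      ind_nonneg _)
    have e1 : ∀ i ∈ Finset.range (T + 1 - G),
        EP k s o θ T G b i (fun xs₁ us xs₃ y => ind (P1 xs₁ us xs₃ y t)) =
        Exc k s (gth k s o θ) i fun xs₁ => Exc k s (gth k s o θ) (t * B) fun as =>
        Exc k s (gth k s o θ) B fun rs => Exc k s (gth k s o θ) (T - (t * B + B) - i) fun xs₂ =>
        Ex k b fun y => ind (PRbad k s B (K₁ * B) Pl Pu ε (xs₁.flatten ++ as.flatten) rs.flatten
          xs₂.flatten y) := by
      intro i hi
      have hi' := Finset.mem_range.mp hi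
      have := EP_block (k := k) (s := s) (o := o) (θ := θ) (T := T) (b := b) (p := i) (B := B)
        (nb := nb) (t := t) ht' hGT hi' (fun a r c y =>
        ind (PRbad k s B (K₁ * B) Pl Pu ε a.flatten r.flatten c.flatten y))
      simp only [List.flatten_append] at this
      rw [← this]
      rfl
    rw [Finset.sum_congr rfl e1]
    refine Finset.sum_le_sum_of_subset_of_nonneg (fun i hi => ?_) fun i _ _ => ?_
    · rw [Finset.mem_range] at hi ⊢; omega
    · exact Exc_nonneg hgn fun _ _ => Exc_nonneg hgn fun _ _ => Exc_nonneg hgn fun _ _ =>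
        Exc_nonneg hgn fun _ _ => Ex_nonneg fun _ _ => ind_nonneg _
  have s2 : ∀ t ∈ Finset.range nb, ∑ i ∈ Finset.range (T + 1 - G),
      EP k s o θ T G b i (fun _ us _ _ => ind (P2 us t)) ≤ (T + 1) * δ3 := by
    intro t ht
    have ht' := Finset.mem_range.mp ht
    have e1 : ∀ i ∈ Finset.range (T + 1 - G),
        EP k s o θ T G b i (fun _ us _ _ => ind (P2 us t)) ≤ 1 * δ3 := by
      intro i hi
      have hi' := Finset.mem_range.mp hi
      have := EP_block (k := k) (s := s) (o := o) (θ := θ) (T := T) (b := b) (p := i) (B := B)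
        (nb := nb) (t := t) ht' hGT hi' (fun _ r _ _ =>
        ind (¬ TU k (B * s) Wm ε₁ δ2 r.flatten))
      have e2 : EP k s o θ T G b i (fun _ us _ _ => ind (P2 us t)) =
        Exc k s (gth k s o θ) i fun xs₁ => Exc k s (gth k s o θ) (t * B) fun as =>
        Exc k s (gth k s o θ) B fun rs => Exc k s (gth k s o θ) (T - (t * B + B) - i) fun xs₂ =>
        Ex k b fun y => ind (¬ TU k (B * s) Wm ε₁ δ2 rs.flatten) := by
        rw [← this]; rfl
      rw [e2]
      simp only [Ex_const hk0, Exc_const hg1]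
      linarith
    calc _ ≤ ∑ _i ∈ Finset.range (T + 1 - G), 1 * δ3 := Finset.sum_le_sum e1
      _ = (∑ _i ∈ Finset.range (T + 1 - G), (1 : ℝ)) * δ3 := (Finset.sum_mul _ _ _).symm
      _ ≤ (T + 1) * δ3 := by
        apply mul_le_mul_of_nonneg_right hcard
        exact le_trans (Exc_nonneg hgn fun _ _ => ind_nonneg _) hTU
  have s3 : ∑ i ∈ Finset.range (T + 1 - G),
      EP k s o θ T G b i (fun xs₁ us xs₃ y => ind (P3 xs₁ (us ++ xs₃) y)) ≤ (T + 1) * δ1 := by
    rw [AV_zero, div_le_iff₀ hT1] at hPE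
    refine le_trans ?_ (hPE.trans (le_of_eq (mul_comm _ _)))
    refine le_trans (le_of_eq ?_) (hsub _ fun i => Exc_nonneg hgn fun _ _ => Exc_nonneg hgn
      fun _ _ => Ex_nonneg fun _ _ => ind_nonneg _)
    refine Finset.sum_congr rfl fun i hi => ?_
    rw [← EP_merge (Finset.mem_range.mp hi) hGT (fun xs₁ xs₂ y => ind (P3 xs₁ xs₂ y))]
  have s4 : ∑ i ∈ Finset.range (T + 1 - G),
      EP k s o θ T G b i (fun _ us _ y => ind (P4 us y)) ≤ (T + 1) * δ4 := by
    have hδ4 : 0 ≤ δ4 := le_trans (Ex_ind_nonneg _ _)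
      (hW (List.replicate (nb * B * s) o) (List.length_replicate))
    have e1 : ∀ i ∈ Finset.range (T + 1 - G),
        EP k s o θ T G b i (fun _ us _ y => ind (P4 us y)) ≤ 1 * δ4 := by
      intro i _
      rw [one_mul]
      refine Exc_le_const hgn hg1 fun _ _ => Exc_le_const hgn hg1 fun us hus =>
        Exc_le_const hgn hg1 fun _ _ => hW us.flatten hus.flatten_length
    calc _ ≤ ∑ _i ∈ Finset.range (T + 1 - G), 1 * δ4 := Finset.sum_le_sum e1
      _ = (∑ _i ∈ Finset.range (T + 1 - G), (1 : ℝ)) * δ4 := (Finset.sum_mul _ _ _).symm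
      _ ≤ (T + 1) * δ4 := mul_le_mul_of_nonneg_right hcard hδ4
  have s5 : ∑ i ∈ Finset.range (T + 1 - G),
      EP k s o θ T G b i (fun xs₁ us xs₃ y => ind (P5 xs₁ (us ++ xs₃) y)) ≤ (T + 1) * δ5 := by
    rw [AV_zero, div_le_iff₀ hT1] at hBK
    refine le_trans ?_ (hBK.trans (le_of_eq (mul_comm _ _)))
    refine le_trans (le_of_eq ?_) (hsub _ fun i => Exc_nonneg hgn fun _ _ => Exc_nonneg hgn
      fun _ _ => Ex_nonneg fun _ _ => ind_nonneg _)
    refine Finset.sum_congr rfl fun i hi => ?_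
    rw [← EP_merge (Finset.mem_range.mp hi) hGT (fun xs₁ xs₂ y => ind (P5 xs₁ xs₂ y))]
  have s6 : ∑ i ∈ Finset.range (T + 1 - G),
      EP k s o θ T G b i (fun _ us _ y => ind (P6 us y)) ≤ (T + 1) * δ6 := by
    have e1 : ∀ i ∈ Finset.range (T + 1 - G),
        EP k s o θ T G b i (fun _ us _ y => ind (P6 us y)) ≤ 1 * δ6 := by
      intro i _
      rw [one_mul]
      refine Exc_le_const hgn hg1 fun _ _ => Exc_le_const hgn hg1 fun us hus =>
        Exc_le_const hgn hg1 fun _ _ => ?_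
      by_cases hc : ∀ t < nb, TU k (B * s) Wm ε₁ δ2 (bk B us t)
      · refine le_trans (Ex_ind_mono fun y _ h => h.2) (hG (fun t => bk B us t) fun t ht =>
          ⟨bk_length hus ht, hc t ht⟩)
      · refine le_trans (le_of_eq ?_) hδ6
        rw [← Ex_zero_fun (k := k) b]
        refine Ex_congr fun y _ => ind_of_not ?_
        simp only [hP6, not_and]
        intro h; exact absurd h hc
    calc _ ≤ ∑ _i ∈ Finset.range (T + 1 - G), 1 * δ6 := Finset.sum_le_sum e1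
      _ = (∑ _i ∈ Finset.range (T + 1 - G), (1 : ℝ)) * δ6 := (Finset.sum_mul _ _ _).symm
      _ ≤ (T + 1) * δ6 := mul_le_mul_of_nonneg_right hcard hδ6
  -- conclusion
  have hfin : ∑ i ∈ Finset.range (T + 1), R i ≤ (G : ℕ) + nb * ((T + 1) * δ1) +
      nb * ((T + 1) * δ3) + (T + 1) * δ1 + (T + 1) * δ4 + (T + 1) * δ5 + (T + 1) * δ6 := by
    have a1 := hsplit R hR1
    have a2 := Finset.sum_le_sum hmain
    simp only [Finset.sum_add_distrib] at a2
    rw [Finset.sum_comm, Finset.sum_comm (t := Finset.range nb)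
      (f := fun i t => EP k s o θ T G b i (fun _ us _ _ => ind (P2 us t)))] at a2
    have a3 := Finset.sum_le_sum s1
    have a4 := Finset.sum_le_sum s2
    rw [Finset.sum_const, Finset.card_range, nsmul_eq_mul] at a3 a4
    linarith
  have hAV : AV k s o θ 0 T b (fun x₁ _ x₂ y => ind (Real.exp (d * s) ≤ nNT x₁ x₂ y (Cp * s))) =
      (∑ i ∈ Finset.range (T + 1), R i) / (T + 1) := AV_zero _ _ _ _ _ _ _
  rw [hAV, div_le_iff₀ hT1]
  refine hfin.trans (le_of_eq ?_)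
  have hne : (T : ℝ) + 1 ≠ 0 := hT1.ne'
  field_simp

end

end Pool.Agent.LCSV
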