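import Pool.Agent.Work.MP_bec1e1_FIN_h39.Interface

/-!
# FIN: `Stmt_FIN` from `Stmt_PHI`, `Stmt_PRI`, `Stmt_FINA`
-/

set_option autoImplicit false

namespace Pool.Agent.LCSV

open Pool.Agent.LCSE

theorem fin_of (hPHI : Stmt_PHI) (hPRI : Stmt_PRI) (hFINA : Stmt_FINA) : Stmt_FIN := by
  intro hDEF hA hLU k hk hR
  have phi := hPHI k hk
  obtain ⟨C, hC, hD⟩ := hDEF k hk
  obtain ⟨p, q, hp, hq, hpq, hfl, hA'⟩ := hA k hk hR
  obtain ⟨Pl, Pu, hP⟩ := hPRI k hk phi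
  exact hFINA k C p q Pl Pu ⟨hk, phi, hC, hD, hp, hq, hpq, hfl, hA', hP⟩
    fun lam hlam => hLU k hk hR lam hlam

end Pool.Agent.LCSV
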