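import Pool.Agent.Work.MP_bec1e1_FIN_h39.Defs
import Pool.Agent.Work.MP_bec1e1_lv_helper15.Interface0

/-!
# FIN: one `Prop` per block (see `PROOF.md`)

`w : World k C p q Pl Pu`. Everywhere `∀ᶠ s`, `N` is within `J` of `NN k s`, `0 ≤ θ ≤ thm k s`.
-/

set_option autoImplicit false
set_option maxHeartbeats 400000

open Filter Topology
open scoped BigOperators

namespace Pool.Agent.LCSV

open Pool.Agent.LCSE

noncomputable section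

/-! ### shape and environment -/

/-- **PRI** -/
def Stmt_PRI : Prop := ∀ k : ℕ, 2 ≤ k → PhiFacts k → ∃ Pl Pu : ℝ, Prices k Pl Pu

/-- **BB** -/
def Stmt_BB : Prop := ∀ k : ℕ, 2 ≤ k → PhiFacts k → ∀ ε : ℝ, 0 < ε → ∀ᶠ s : ℕ in atTop,
  NN k s * s ≤ bb k s ∧ (bb k s : ℝ) ≤ rho k * (NN k s * s) ∧
  (rho k - ε) * (NN k s * s) ≤ bb k s ∧ (rho k = 1 → bb k s = NN k s * s) ∧
  (1 < rho k → (bb k s : ℝ) ≤ rho k * (((NN k s : ℝ) - HH k s) * s))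

/-- **TILT** -/
def Stmt_TILT : Prop := ∀ (k s N b : ℕ) (o : Fin k) (θ : ℝ), 2 ≤ k → 0 ≤ θ → θ ≤ thm k s →
  |EN k s o θ N b - F k (N * s) b| ≤ N * s / (k : ℝ) ^ s

/-- **CONC**: concavity in the number of cells (from `Stmt_ROWC`). -/
def Stmt_CONC : Prop := ∀ (k s N b : ℕ) (o : Fin k) (θ : ℝ), 2 ≤ k → 0 ≤ θ → θ ≤ thm k s →
  EN k s o θ (N + 2) b + EN k s o θ N b ≤ 2 * EN k s o θ (N + 1) b

/-- **EQS** (equal service): mean value theorem for `θ ↦ EN k s o θ (NN k s) (bb k s)` on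
`[0, thm k s]`; derivative `= NN * AV (…)`; `EN (thm) ≤ p NN s + q b` by (A), `EN 0 = F ≥ Phi - C √`. -/
def Stmt_EQS : Prop := ∀ (k : ℕ) (C p q Pl Pu : ℝ), World k C p q Pl Pu → ∀ o : Fin k,
  ∀ ε : ℝ, 0 < ε → ∀ᶠ s : ℕ in atTop, ∃ θ : ℝ, 0 ≤ θ ∧ θ ≤ thm k s ∧
    AV k s o θ 0 (NN k s - 1) (bb k s) (fun x₁ _ x₂ y =>
      (Ex k s fun r => (L (x₁ ++ r ++ x₂) y : ℝ)) - L (x₁ ++ List.replicate s o ++ x₂) y) ≤ ε

/-- **MEAN**: mean gain of one more cell. -/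
def Stmt_MEAN : Prop := ∀ (k : ℕ) (C p q Pl Pu : ℝ), World k C p q Pl Pu → ∀ ε : ℝ, 0 < ε →
  ∀ J : ℕ, ∀ᶠ s : ℕ in atTop, ∀ (o : Fin k) (θ : ℝ), 0 ≤ θ → θ ≤ thm k s →
  ∀ N : ℕ, NN k s ≤ N + J → N ≤ NN k s + J →
    EN k s o θ (N + 1) (bb k s) - EN k s o θ N (bb k s) ≤ (Pu + ε) * s

/-- **LOW**: the LCS of the environment is near its maximal value. -/
def Stmt_LOW : Prop := ∀ (k : ℕ) (C p q Pl Pu : ℝ), World k C p q Pl Pu → ∀ ε : ℝ, 0 < ε →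
  ∀ J : ℕ, ∀ᶠ s : ℕ in atTop, ∀ (o : Fin k) (θ : ℝ), 0 ≤ θ → θ ≤ thm k s →
  ∀ N : ℕ, NN k s ≤ N + J → N ≤ NN k s + J →
    (Exc k s (gth k s o θ) N fun xs => Ex k (bb k s) fun y =>
      ind ((L xs.flatten y : ℝ) < al k * (N * s + bb k s) - ε * (N * s))) ≤ ε

/-- **HUG** (main path): at most positions the `A` cells `u` are crossed by the optimal path in a
window of width about `rho A s` with typical content (`Q` = atypical; `r` = independent cells). -/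
def Stmt_HUG : Prop := ∀ (k : ℕ) (C p q Pl Pu : ℝ), World k C p q Pl Pu → ∀ ε : ℝ, 0 < ε →
  ∀ (A : ℕ), 1 ≤ A → ∀ (j J : ℕ) (η : ℝ), 0 < η → ∀ᶠ s : ℕ in atTop,
  ∀ (o : Fin k) (θ : ℝ), 0 ≤ θ → θ ≤ thm k s →
  ∀ N : ℕ, NN k s ≤ N + J → N ≤ NN k s + J →
  ∀ Q : List (Fin k) → List (Fin k) → List (Fin k) → Prop,
  (∀ w : ℕ, (w : ℝ) ≤ (rho k + 1) * (A * s) → (Ex k (j * s) fun r => Ex k (A * s) fun u =>
    Ex k w fun v => ind (Q r u v)) ≤ Real.exp (-(η * s))) →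
  (∑ p ∈ Finset.range (N + 1 - A), Exc k s (gth k s o θ) p fun xs₁ =>
    Exc k s (gth k s o θ) j fun rs => Exc k s (gth k s o θ) A fun us =>
    Exc k s (gth k s o θ) (N - A - p) fun xs₂ => Ex k (bb k s) fun y =>
      ind (¬ ∃ g w : ℕ, g + w ≤ y.length ∧ |(w : ℝ) - rho k * (A * s)| ≤ ε * s ∧
        ¬ Q rs.flatten us.flatten ((y.drop g).take w) ∧
        L (xs₁.flatten ++ us.flatten ++ xs₂.flatten) y = L xs₁.flatten (y.take g) +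
          L us.flatten ((y.drop g).take w) + L xs₂.flatten (y.drop (g + w)))) ≤ ε * (N + 1)

/-! ### prices -/

/-- **PLO**: inserting `j` cells gains at least `Pl` per row at most positions. -/
def Stmt_PLO : Prop := ∀ (k : ℕ) (C p q Pl Pu : ℝ), World k C p q Pl Pu → ∀ ε : ℝ, 0 < ε →
  ∀ (j J : ℕ), ∀ᶠ s : ℕ in atTop, ∀ (o : Fin k) (θ : ℝ), 0 ≤ θ → θ ≤ thm k s →
  ∀ N : ℕ, NN k s ≤ N + J → N ≤ NN k s + J →
    AV k s o θ j N (bb k s) (fun x₁ r x₂ y => ind ((L (x₁ ++ r ++ x₂) y : ℝ) <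
      L (x₁ ++ x₂) y + (Pl - ε) * (j * s))) ≤ ε

/-- conclusion of the upper price for one alphabet -/
def PUPc (k : ℕ) (Pu : ℝ) : Prop := ∀ ε : ℝ, 0 < ε →
  ∀ (j J : ℕ), ∀ᶠ s : ℕ in atTop, ∀ (o : Fin k) (θ : ℝ), 0 ≤ θ → θ ≤ thm k s →
  ∀ N : ℕ, NN k s ≤ N + J → N ≤ NN k s + J →
    AV k s o θ j N (bb k s) (fun x₁ r x₂ y => ind (
      (L (x₁ ++ x₂) y : ℝ) + (Pu + ε) * (j * s) < L (x₁ ++ r ++ x₂) y)) ≤ ε

/-- **PUPA**: trivial cone, from `HUG` (with `j = 0`, `N + j` cells, `A ≥ j / u`): removing the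
first `j` of `A` cells costs at most `Pu` per row. -/
def Stmt_PUPA : Prop := ∀ (k : ℕ) (C p q Pl Pu : ℝ), World k C p q Pl Pu → rho k = 1 → PUPc k Pu

/-- **PUPB**: nontrivial cone, from `MEAN`, `PLO` and Markov (gains are nonnegative). -/
def Stmt_PUPB : Prop := ∀ (k : ℕ) (C p q Pl Pu : ℝ), World k C p q Pl Pu → 1 < rho k → PUPc k Pu

/-- **PE**: the same with the mean over uniform inserted rows. -/
def Stmt_PE : Prop := ∀ (k : ℕ) (C p q Pl Pu : ℝ), World k C p q Pl Pu → ∀ ε : ℝ, 0 < ε →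
  ∀ (j J : ℕ), ∀ᶠ s : ℕ in atTop, ∀ (o : Fin k) (θ : ℝ), 0 ≤ θ → θ ≤ thm k s →
  ∀ N : ℕ, NN k s ≤ N + J → N ≤ NN k s + J →
    AV k s o θ 0 N (bb k s) (fun x₁ _ x₂ y => ind (
      ((Ex k (j * s) fun r => (L (x₁ ++ r ++ x₂) y : ℝ)) < L (x₁ ++ x₂) y + (Pl - ε) * (j * s)) ∨
      ((L (x₁ ++ x₂) y : ℝ) + (Pu + ε) * (j * s) <
        Ex k (j * s) fun r => (L (x₁ ++ r ++ x₂) y : ℝ)))) ≤ ε

open scoped Classical in
/-- the price of replacing the `B` cells `u` by `j'` uniform cells is wrong for some `j' ≤ J'` -/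
def PRbad (k s B J' : ℕ) (Pl Pu ε : ℝ) (x₁ u x₂ y : List (Fin k)) : Prop :=
  ∃ j' ≤ J', (L (x₁ ++ u ++ x₂) y : ℝ) + (if B ≤ j' then Pu else Pl) * ((j' : ℝ) - B) * s + ε * s <
    Ex k (j' * s) fun r => (L (x₁ ++ r ++ x₂) y : ℝ)

/-- **PR**: from `PLO`, `PUP` (environments with `N + B`, `N + j'` cells) and bounded differences
in `u`. -/
def Stmt_PR : Prop := ∀ (k : ℕ) (C p q Pl Pu : ℝ), World k C p q Pl Pu → ∀ ε : ℝ, 0 < ε →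
  ∀ (B J' J : ℕ), ∀ᶠ s : ℕ in atTop, ∀ (o : Fin k) (θ : ℝ), 0 ≤ θ → θ ≤ thm k s →
  ∀ N : ℕ, NN k s ≤ N + J → N ≤ NN k s + J →
    AV k s o θ B N (bb k s) (fun x₁ u x₂ y => ind (PRbad k s B J' Pl Pu ε x₁ u x₂ y)) ≤ ε

/-- **SHIFT**: cells `x₁ a r x₂` with `a` cells between `x₁` and `r`. -/
def Stmt_SHIFT : Prop := ∀ (k s N b a j : ℕ) (o : Fin k) (θ : ℝ)
  (Φ : List (Fin k) → List (Fin k) → List (Fin k) → List (Fin k) → ℝ), 2 ≤ k → 0 ≤ θ →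
  θ ≤ thm k s → a + j ≤ N → (∀ x₁ r x₂ y, 0 ≤ Φ x₁ r x₂ y) →
  (∑ p ∈ Finset.range (N + 1 - (a + j)), Exc k s (gth k s o θ) p fun xs₁ =>
    Exc k s (gth k s o θ) a fun as => Exc k s (gth k s o θ) j fun rs =>
    Exc k s (gth k s o θ) (N - (a + j) - p) fun xs₂ => Ex k b fun y =>
      Φ (xs₁.flatten ++ as.flatten) rs.flatten xs₂.flatten y) ≤
    ((N : ℝ) - j + 1) * AV k s o θ j (N - j) b Φ

/-! ### T2 and near-ties -/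

/-- **FTYP** (was TYPP) -/
def Stmt_FTYP : Prop := ∀ (k : ℕ) (C p q Pl Pu : ℝ), World k C p q Pl Pu → ∀ ε : ℝ, 0 < ε →
  ∃ d : ℝ, 0 < d ∧ ∀ᶠ s : ℕ in atTop, ∀ o : Fin k,
    (Ex k (2 * k * s) fun v => ind (¬ Typ k s o ε v)) ≤ Real.exp (-(d * s))

/-- **T2D** (deterministic): if all near-ties of level `s` have typical windows then the random cell
gains at least as much as `o^s`, and either strictly more, or the second random cell gains more than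
the price, or the random cell is below the price. `a₁, a₂` = mean value with `s`, `2 s` uniform rows
inserted, `b₁` = value with `o^s` inserted, `a₀` = value. -/
def Stmt_T2D : Prop := ∀ (k : ℕ) (C p q Pl Pu : ℝ), World k C p q Pl Pu →
  ∃ ε₀ η : ℝ, 0 < ε₀ ∧ 0 < η ∧ ∀ ε : ℝ, 0 < ε → ε ≤ ε₀ → ∀ s : ℕ, 1 ≤ s →
  ∀ (o : Fin k) (x₁ x₂ y : List (Fin k)),
  (∀ g ≤ y.length, NT x₁ x₂ y s g → Typ k s o ε ((y.drop g).take (2 * k * s))) →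
  (L (x₁ ++ List.replicate s o ++ x₂) y : ℝ) - 2 * ε * s ≤
      (Ex k s fun r => (L (x₁ ++ r ++ x₂) y : ℝ)) ∧
  ((L (x₁ ++ List.replicate s o ++ x₂) y : ℝ) + η * s ≤
      (Ex k s fun r => (L (x₁ ++ r ++ x₂) y : ℝ)) ∨
   (Ex k s fun r => (L (x₁ ++ r ++ x₂) y : ℝ)) + (Pu + η) * s ≤
      (Ex k (2 * s) fun r => (L (x₁ ++ r ++ x₂) y : ℝ)) ∨
   (Ex k s fun r => (L (x₁ ++ r ++ x₂) y : ℝ)) < L (x₁ ++ x₂) y + (Pl - ε) * s)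

/-- **T2**: from `EQS`, `MEAN`, `PE` (`j = 1`), `T2D`. -/
def Stmt_T2 : Prop := ∀ (k : ℕ) (C p q Pl Pu : ℝ), World k C p q Pl Pu → ∀ o : Fin k,
  ∃ c₀ ε : ℝ, 0 < c₀ ∧ 0 < ε ∧ ∀ᶠ s : ℕ in atTop, ∃ θ : ℝ, 0 ≤ θ ∧ θ ≤ thm k s ∧
    c₀ ≤ AV k s o θ 0 (NN k s - 1) (bb k s) (fun x₁ _ x₂ y =>
      ind (∃ g ≤ y.length, NT x₁ x₂ y s g ∧ ¬ Typ k s o ε ((y.drop g).take (2 * k * s))))

/-- **BULK**: no near-ties close to the last column. -/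
def Stmt_BULK : Prop := ∀ (k : ℕ) (C p q Pl Pu : ℝ), World k C p q Pl Pu → ∀ ε : ℝ, 0 < ε →
  ∀ J : ℕ, ∀ᶠ s : ℕ in atTop, ∀ (o : Fin k) (θ : ℝ), 0 ≤ θ → θ ≤ thm k s →
    AV k s o θ 0 (NN k s - 1) (bb k s) (fun x₁ _ x₂ y =>
      ind (∃ g ≤ y.length, y.length < g + J * s ∧ NT x₁ x₂ y (J * s) g)) ≤ ε

/-- **RES** (resampling of one window): if windows of length `h` are atypical (`Q`) with probability
`≤ δ` then few near-ties cannot have an atypical window. -/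
def Stmt_RES : Prop := ∀ (k h b : ℕ) (x₁ x₂ : List (Fin k)) (Q : List (Fin k) → Prop)
  (δ ℓ M : ℝ), 2 ≤ k → 0 ≤ M → (Ex k h fun v => ind (Q v)) ≤ δ →
  (Ex k b fun y => ind (∃ g, g + h ≤ b ∧ NT x₁ x₂ y ℓ g ∧ Q ((y.drop g).take h) ∧
    (nNT x₁ x₂ y (ℓ + 6 * h) : ℝ) < M)) ≤ M * δ

/-- **NEAR**: many near-ties. From `T2`, `TYPP`, `BULK`, `RES` with `h = 2 k s`. -/
def Stmt_NEAR : Prop := ∀ (k : ℕ) (C p q Pl Pu : ℝ), World k C p q Pl Pu → ∀ o : Fin k,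
  ∃ c₀ d Cp : ℝ, 0 < c₀ ∧ 0 < d ∧ 0 < Cp ∧ ∀ᶠ s : ℕ in atTop, ∃ θ : ℝ, 0 ≤ θ ∧ θ ≤ thm k s ∧
    c₀ ≤ AV k s o θ 0 (NN k s - 1) (bb k s) (fun x₁ _ x₂ y =>
      ind (Real.exp (d * s) ≤ nNT x₁ x₂ y (Cp * s)))

/-! ### survivors -/

/-- **GREEDY** -/
def Stmt_GREEDY : Prop := ∀ (k w : ℕ) (x : List (Fin k)), 2 ≤ k →
  (Ex k w fun v => ind (L x v < x.length)) ≤
    Real.exp x.length * (1 - (1 - Real.exp (-1)) / k) ^ w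

/-- **WIDE** -/
def Stmt_WIDE : Prop := ∀ (k : ℕ) (C p q Pl Pu : ℝ), World k C p q Pl Pu → ∃ K : ℕ, 1 ≤ K ∧
  ∀ (G : ℕ), 1 ≤ G → ∀ ε : ℝ, 0 < ε → ∀ᶠ s : ℕ in atTop, ∀ u : List (Fin k), u.length = G * s →
    (Ex k (bb k s) fun y => ind (¬ Wide k (G * s) K ε u y)) ≤ ε

/-- **DET1** (deterministic): many near-ties give a family of disjoint chains. `P` = price at the
scale of the whole stretch `us`. -/
def Stmt_DET1 : Prop := ∀ (k nb D K m : ℕ) (x₁ x₃ y : List (Fin k)) (us : List (List (Fin k)))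
  (κ ε P : ℝ), us.length = nb → us.flatten.length = D → 1 ≤ D → 1 ≤ K → 0 ≤ κ → 0 ≤ ε →
  κ + P * D < (1 - ε) * D → Wide k D K ε us.flatten y →
  (Ex k D fun r => (L (x₁ ++ r ++ (us.flatten ++ x₃)) y : ℝ)) ≤
    L (x₁ ++ (us.flatten ++ x₃)) y + P * D →
  (∀ g ≤ y.length, NT x₁ (us.flatten ++ x₃) y κ g → g + 2 * (K * D) ≤ y.length) →
  m * (2 * (K * D) + 1) ≤ nNT x₁ (us.flatten ++ x₃) y κ →
  ∃ vs : List (List (Fin k)), Fam m nb (2 * (K * D)) y vs ∧ ∀ i < m, ∀ t < nb,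
    ∀ u : List (Fin k),
    (L (x₁ ++ (us.flatten ++ x₃)) y : ℝ) - κ - L (us.getD t []) (Wd nb vs i t) +
      L u (Wd nb vs i t) ≤
      L ((x₁ ++ (us.take t).flatten) ++ u ++ ((us.drop (t + 1)).flatten ++ x₃)) y

open scoped Classical in
/-- **DET2** (deterministic): the contradiction in one block. -/
def Stmt_DET2 : Prop := ∀ (k : ℕ) (C p q Pl Pu : ℝ), World k C p q Pl Pu →
  ∀ (s B K₁ nb m t : ℕ) (Cp lam ζ ε ε₁ : ℝ) (x' x'' y : List (Fin k)) (us : ℕ → List (Fin k))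
    (vs : List (List (Fin k))), 1 ≤ s → 1 ≤ B → 0 ≤ Cp → 0 < lam → 0 < ζ → ζ < 1 → 0 < ε → ε ≤ 1 →
  0 < ε₁ → 4 ≤ K₁ * (gam k - Pu) → 64 * (Cp + 1) ≤ ζ * Pl * B → 64 * ε₁ ≤ ζ * Pl →
  ε₁ * K₁ ≤ 1 → 8 * K₁ * B * Real.exp (lam * ζ * (K₁ * B * s : ℕ)) ≤ m →
  64 ≤ ζ ^ 2 * Pl * B * s → (us t).length = B * s →
  (∀ i < m, ∀ u : List (Fin k), (L (x' ++ us t ++ x'') y : ℝ) - Cp * s -
    L (us t) (Wd nb vs i t) + L u (Wd nb vs i t) ≤ L (x' ++ u ++ x'') y) →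
  ¬ PRbad k s B (K₁ * B) Pl Pu ε x' (us t) x'' y →
  2 * ((Finset.range m).filter fun i => Bad k s (B * s) nb K₁ lam ζ ε₁ us vs i t).card < m → False

/-- **TUP** -/
def Stmt_TUP : Prop := ∀ (k : ℕ) (C p q Pl Pu : ℝ), World k C p q Pl Pu → ∀ (B : ℕ), 1 ≤ B →
  ∀ ε₁ : ℝ, 0 < ε₁ → ∃ η : ℝ, 0 < η ∧ ∀ Wc : ℕ, ∀ᶠ s : ℕ in atTop,
    (Ex k (B * s) fun u => ind (¬ TU k (B * s) (Wc * s) ε₁ η u)) ≤ Real.exp (-(η * s))

/-- **UNI** (adaptive union bound over all families): `hL` is the luck at `(lam, ζ, c)`. -/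
def Stmt_UNI : Prop := ∀ (k : ℕ) (C p q Pl Pu : ℝ), World k C p q Pl Pu →
  ∀ (lam ζ c : ℝ), 0 < lam → 0 < ζ → 0 < c →
  (∀ᶠ n : ℕ in atTop, ∀ B : List (Fin k) → Prop, 1 / 2 ≤ (Ex k n fun u => ind (B u)) →
    (Ex k n fun V => ind ((Ex k n fun u => ind (B u ∧ (gam k + ζ) * n ≤ (L u V : ℝ))) <
      Real.exp (-(lam * ζ * n)))) ≤ Real.exp (-(c * n))) →
  ∀ (K₁ B : ℕ), 1 ≤ K₁ → 1 ≤ B → ∀ ε₁ η : ℝ, 0 < ε₁ → 0 < η → ∃ nb : ℕ, 1 ≤ nb ∧ ∀ Wc : ℕ,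
    ∀ᶠ s : ℕ in atTop, ∀ m : ℕ, 1 ≤ m → ∀ us : ℕ → List (Fin k),
    (∀ t < nb, (us t).length = B * s ∧ TU k (B * s) (Wc * s) ε₁ η (us t)) →
    (Ex k (bb k s) fun y => ind (¬ GoodY k s (B * s) nb K₁ m (Wc * s) lam ζ ε₁ us y)) ≤
      (1 / 2 : ℝ) ^ m

/-- **FINA** (assembly): for one alphabet. -/
def Stmt_FINA : Prop := ∀ (k : ℕ) (C p q Pl Pu : ℝ), World k C p q Pl Pu → ¬ Luck k

end

end Pool.Agent.LCSV
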